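import Pool.Agent.H28.RC.Defs

/-!
# Hecke L-functions of ray class characters: targets, part 1
-/

set_option autoImplicit false

open NumberField NumberField.InfinitePlace NumberField.Units
  NumberField.Units.dirichletUnitTheorem MeasureTheory Set Filter Complex
open scoped nonZeroDivisors ENNReal

namespace Pool.Agent.H28.RC

open Pool.Agent.H25.HK Pool.Agent.H25

/-! ### Poisson summation -/

/-- (F1) one-dimensional Fourier transform. -/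
def T_F1 : Prop :=
  ∀ k : ℝ, Integrable (fun x : ℝ => x * Real.exp (-Real.pi * x ^ 2)) ∧
    ∫ x : ℝ, cexp (-(2 * Real.pi * (k * x) : ℝ) * I) * ((x * Real.exp (-Real.pi * x ^ 2) : ℝ) : ℂ) =
      -I * ((k * Real.exp (-Real.pi * k ^ 2) : ℝ) : ℂ)

/-- (GA) the Fourier transform of `gj J (A x)`. -/
def T_GAc : Prop :=
  ∀ (ι : Type) [Fintype ι] [DecidableEq ι] (A : Matrix ι ι ℝ) (J : Finset ι), A.det ≠ 0 →
    ∀ k : ι → ℝ, Integrable (fun x : ι → ℝ => gj J (A.mulVec x)) ∧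
    ∫ x : ι → ℝ, cexp (-(2 * Real.pi * (∑ i, k i * x i) : ℝ) * I) * (gj J (A.mulVec x) : ℂ) =
      ((|A.det|⁻¹ : ℝ) : ℂ) * (-I) ^ J.card * (gj J ((A⁻¹).transpose.mulVec k) : ℂ)

/-- (GS) domination. -/
def T_GSc : Prop :=
  ∀ (ι : Type) [Fintype ι] [DecidableEq ι] (A : Matrix ι ι ℝ) (J : Finset ι), A.det ≠ 0 →
    ∀ x₀ : ι → ℝ, ∃ B : (ι → ℤ) → ℝ, Summable B ∧ ∀ (m : ι → ℤ) (x : ι → ℝ),
      (∀ i, x i ∈ Icc (0 : ℝ) 1) → |gj J (A.mulVec (fun i => x i + m i + x₀ i))| ≤ B m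

/-- (PO) Poisson summation with a shift. -/
def T_POc : Prop :=
  ∀ (ι : Type) [Fintype ι] [DecidableEq ι] (A : Matrix ι ι ℝ) (J : Finset ι), A.det ≠ 0 →
    ∀ x₀ : ι → ℝ, Summable (fun m : ι → ℤ => ‖gj J (A.mulVec (fun i => (m i : ℝ) + x₀ i))‖) ∧
      Summable (fun k : ι → ℤ => ‖gj J ((A⁻¹).transpose.mulVec (fun i => (k i : ℝ)))‖) ∧
      ∑' m : ι → ℤ, (gj J (A.mulVec (fun i => (m i : ℝ) + x₀ i)) : ℂ) =
        ((|A.det|⁻¹ : ℝ) : ℂ) * (-I) ^ J.card * ∑' k : ι → ℤ,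
          cexp ((2 * Real.pi * (∑ i, (k i : ℝ) * x₀ i) : ℝ) * I) *
            (gj J ((A⁻¹).transpose.mulVec (fun i => (k i : ℝ))) : ℂ)

/-! ### Lattices in number fields -/

open scoped Classical in
/-- (GM) the matrix of the coordinates of a basis. -/
def T_GMc : Prop :=
  ∀ (K : Type) [Field K] [NumberField K]
    (b b' : Module.Basis (mixedEmbedding.index K) ℚ K),
    (∀ i j, Algebra.trace ℚ K (b i * b' j) = if i = j then 1 else 0) →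
    ∀ y : InfinitePlace K → ℝ, ∃ A : Matrix (mixedEmbedding.index K) (mixedEmbedding.index K) ℝ,
      A.det ≠ 0 ∧
      (∀ m : mixedEmbedding.index K → ℚ,
        A.mulVec (fun i => ((m i : ℚ) : ℝ)) = co K 1 y (∑ i, m i • b i)) ∧
      (∀ m : mixedEmbedding.index K → ℚ,
        (A⁻¹).transpose.mulVec (fun i => ((m i : ℚ) : ℝ)) = co K (-1) (-y) (∑ i, m i • b' i)) ∧
      |A.det| = Real.exp ((∑ v, (v.mult : ℝ) * y v) / 2) *
        Real.sqrt |((Algebra.discr ℚ b : ℚ) : ℝ)|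

open scoped Classical in
/-- (LB) bases of a fractional ideal and its dual, indexed by the real coordinates. -/
def T_LBc : Prop :=
  ∀ (K : Type) [Field K] [NumberField K] (M : FI K),
    M ≠ 0 → ∃ b b' : Module.Basis (mixedEmbedding.index K) ℚ K,
      (∀ i j, Algebra.trace ℚ K (b i * b' j) = if i = j then 1 else 0) ∧
      (∀ x : K, x ∈ M ↔ ∃ m : mixedEmbedding.index K → ℤ, ∑ i, m i • b i = x) ∧
      (∀ x : K, x ∈ du K M ↔ ∃ m : mixedEmbedding.index K → ℤ, ∑ i, m i • b' i = x) ∧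
      |((Algebra.discr ℚ b : ℚ) : ℝ)| = cv K M ^ 2

/-- (RX) representatives of `M / f M`. -/
def T_RX : Prop :=
  ∀ (K : Type) [Field K] [NumberField K] (f : Ideal (𝓞 K)) (M : FI K), f ≠ ⊥ → M ≠ 0 →
    ∃ X : Finset K, Rep K f M X ∧ X.card = Ideal.absNorm f

/-- (TH) the functional equation of the theta series with periodic coefficients. -/
def T_THc : Prop :=
  ∀ (K : Type) [Field K] [NumberField K] (S : Finset (RP K)) (f : Ideal (𝓞 K)) (M : FI K)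
    (X : Finset K) (c : K → ℂ), f ≠ ⊥ → M ≠ 0 → Rep K f M X →
    (∀ x ∈ M, ∀ l ∈ (f : FI K) * M, c (x + l) = c x) → ∀ y : InfinitePlace K → ℝ,
    tf K S M c y = ((Real.exp (-(∑ v, (v.mult : ℝ) * y v) / 2) *
      (cv K ((f : FI K) * M))⁻¹ : ℝ) : ℂ) * (-I) ^ S.card *
        tf K S (du K ((f : FI K) * M)) (ft K X c) (-y)

/-- (SM) absolute convergence. -/
def T_SMc : Prop :=
  ∀ (K : Type) [Field K] [NumberField K] (S : Finset (RP K)) (M : FI K), M ≠ 0 →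
    ∀ y : InfinitePlace K → ℝ,
    Summable (fun x : {x : K // x ∈ M} => |ws K S y x| * Real.exp (-Real.pi * qK K y x)) ∧
    ∀ x : K, |ws K S y x| * Real.exp (-Real.pi * qK K y x) ≤
      Real.exp (-Real.pi * qK K (fun v => y v - Real.log 2) x)

/-! ### The coefficients and the Gauss sum -/

/-- (ID) the ideals `x M⁻¹`. -/
def T_ID : Prop :=
  ∀ (K : Type) [Field K] [NumberField K] (M : FI K), M ≠ 0 →
    (∀ x ∈ M, (idl K M x : FI K) * M = FractionalIdeal.spanSingleton (𝓞 K)⁰ x) ∧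
    (∀ (J : Ideal (𝓞 K)) (x : K), (J : FI K) * M = FractionalIdeal.spanSingleton (𝓞 K)⁰ x →
      idl K M x = J) ∧
    (∀ (a : 𝓞 K), ∀ x ∈ M, idl K M ((a : K) * x) = Ideal.span {a} * idl K M x) ∧
    (∀ x ∈ M, (idl K M x = ⊥ ↔ x = 0)) ∧
    (∀ J : Ideal (𝓞 K), J ≠ ⊥ → ∀ x ∈ (J : FI K) * M, x ∈ M ∧
      idl K M x = J * idl K ((J : FI K) * M) x) ∧
    (∃ x : K, x ≠ 0 ∧ x ∈ M) ∧
    ∀ t : K, t ≠ 0 → ∀ x ∈ M,
      idl K (FractionalIdeal.spanSingleton (𝓞 K)⁰ t * M) (t * x) = idl K M x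

/-- (CM) elementary properties of the coefficients. -/
def T_CM : Prop :=
  ∀ (K : Type) [Field K] [NumberField K] (χ : RCC K) (M : FI K), M ≠ 0 →
    (∀ a : 𝓞 K, a ≠ 0 → ∀ x ∈ M, cf χ M ((a : K) * x) =
      sg K χ.S a * χ.ψ (Ideal.span {a}) * cf χ M x) ∧
    (∀ x ∈ M, ‖cf χ M x‖ ≤ 1) ∧
    (∀ u : (𝓞 K)ˣ, ∀ x ∈ M, cf χ M ((u : K) * x) = sg K χ.S (u : K) * cf χ M x) ∧
    (∀ x ∈ M, x ≠ 0 → idl K M x ⊔ χ.f = ⊤ → ‖cf χ M x‖ = 1) ∧
    (∀ x ∈ M, x ≠ 0 → idl K M x ⊔ χ.f ≠ ⊤ → cf χ M x = 0) ∧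
    (χ.f ≠ ⊤ → cf χ M 0 = 0) ∧
    (∀ x : K, cf χ.bar M x = (starRingEnd ℂ) (cf χ M x)) ∧
    z0 χ M ≠ 0 ∧ z0 χ M ∈ (χ.f : FI K) * M

/-- (CP) the coefficients are periodic. -/
def T_CP : Prop :=
  ∀ (K : Type) [Field K] [NumberField K] (χ : RCC K) (M : FI K), M ≠ 0 →
    ∀ x ∈ M, ∀ l ∈ (χ.f : FI K) * M, cf χ M (x + l) = cf χ M x

/-- (CV) the Gauss sums vanish off the primitive elements. -/
def T_CV : Prop :=
  ∀ (K : Type) [Field K] [NumberField K] (χ : RCC K) (M : FI K) (X : Finset K), M ≠ 0 →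
    Rep K χ.f M X → ∀ P : Ideal (𝓞 K), P.IsPrime → χ.f ≤ P → ∀ y ∈ (P : FI K) * du' χ M,
      ft K X (cf χ M) y = 0

/-- (CI) the Gauss sums are proportional to the coefficients of the conjugate character. -/
def T_CI : Prop :=
  ∀ (K : Type) [Field K] [NumberField K] (χ : RCC K) (M N : FI K) (X Y : Finset K), M ≠ 0 →
    N ≠ 0 → Rep K χ.f M X → Rep K χ.f N Y → ∀ y ∈ du' χ M, ∀ z ∈ du' χ N, y ≠ 0 → z ≠ 0 →
    idl K (du' χ M) y ⊔ χ.f = ⊤ → idl K (du' χ N) z ⊔ χ.f = ⊤ →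
    ft K X (cf χ M) y * cf χ.bar (du' χ N) z = ft K Y (cf χ N) z * cf χ.bar (du' χ M) y

/-- `W` is the Gauss sum of `χ` -/
def IsW {K : Type} [Field K] [NumberField K] (χ : RCC K) (W : ℂ) : Prop :=
  ∀ (M : FI K) (X : Finset K), M ≠ 0 → Rep K χ.f M X → ∀ y ∈ du' χ M,
    ft K X (cf χ M) y = W * cf χ.bar (du' χ M) y

/-- (CW) the Gauss sum. -/
def T_CW : Prop :=
  ∀ (K : Type) [Field K] [NumberField K] (χ : RCC K), ∃ W : ℂ, IsW χ W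

/-- (CN) the absolute value of the Gauss sum. -/
def T_CN : Prop :=
  ∀ (K : Type) [Field K] [NumberField K] (χ : RCC K) (W : ℂ), IsW χ W →
    ‖W‖ ^ 2 = (Ideal.absNorm χ.f : ℝ)

/-! ### The averaged theta function -/

/-- (UI) invariance under units. -/
def T_UIc : Prop :=
  ∀ (K : Type) [Field K] [NumberField K] (χ : RCC K) (M : FI K) (τ : ℝ) (z : logSpace K)
    (u : (𝓞 K)ˣ), M ≠ 0 →
    (∀ (S : Finset (RP K)) (x : K), |ws K S (yc K τ (z + logEmbedding K (Additive.ofMul u))) x| =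
      |ws K S (yc K τ z) ((u : K) * x)|) ∧
    tf K χ.S M (cf χ M) (yc K τ (z + logEmbedding K (Additive.ofMul u))) =
      tf K χ.S M (cf χ M) (yc K τ z)

/-- (CT) continuity. -/
def T_CTc : Prop :=
  ∀ (K : Type) [Field K] [NumberField K] (S : Finset (RP K)) (M : FI K) (c : K → ℂ), M ≠ 0 →
    (∀ x ∈ M, ‖c x‖ ≤ 1) → Continuous (tf K S M c)

open scoped Classical in
/-- (DC) decay. -/
def T_DCc : Prop :=
  ∀ (K : Type) [Field K] [NumberField K] (S : Finset (RP K)) (M : FI K) (c : K → ℂ), M ≠ 0 →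
    (∀ x ∈ M, ‖c x‖ ≤ 1) → ∃ C b : ℝ, 0 < b ∧ ∀ t : ℝ, 1 ≤ t → ∀ z ∈ Fd K,
      ‖tf K S M c (yc K (Real.log t) z) - (if S = ∅ then c 0 else 0)‖ ≤
        C * Real.exp (-b * t ^ ((2 : ℝ) / Module.finrank ℚ K))

/-- (WP) the pair of functions for the abstract functional equation of Mathlib. -/
def T_WPc : Prop :=
  ∀ (K : Type) [Field K] [NumberField K] (χ : RCC K) (W : ℂ) (M : FI K), IsW χ W → M ≠ 0 →
    ∃ P : WeakFEPair ℂ, (∀ t, P.f t = ffc χ M t) ∧ (∀ t, P.g t = ffc χ.bar (du' χ M) t) ∧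
      P.k = 1 ∧ P.ε = (((cv K ((χ.f : FI K) * M))⁻¹ : ℝ) : ℂ) * (-I) ^ χ.S.card * W ∧
      P.f₀ = k0 χ M ∧ P.g₀ = k0 χ.bar (du' χ M)

/-! ### Unfolding -/

open scoped Classical in
/-- (GI) the Gamma integral. -/
def T_GIc : Prop :=
  ∀ (K : Type) [Field K] [NumberField K] (S : Finset (RP K)) (x : K) (s : ℂ), x ≠ 0 →
    0 < s.re →
    Integrable (fun p : ℝ × logSpace K =>
      ((|ws K S (yc K p.1 p.2) x| * Real.exp (-Real.pi * qK K (yc K p.1 p.2) x) : ℝ) : ℂ) *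
        cexp (s * p.1)) ∧
    ∫ p : ℝ × logSpace K,
      ((|ws K S (yc K p.1 p.2) x| * Real.exp (-Real.pi * qK K (yc K p.1 p.2) x) : ℝ) : ℂ) *
        cexp (s * p.1) =
      ((2 : ℂ) ^ (nrRealPlaces K + nrComplexPlaces K))⁻¹ *
        (Gammaℝ s ^ (nrRealPlaces K - S.card) * Gammaℝ (s + 1) ^ S.card *
          Gammaℂ s ^ nrComplexPlaces K) *
        (((|Algebra.norm ℚ x| : ℚ) : ℝ) : ℂ) ^ (-s)

/-- (ME) the Mellin transform of the averaged theta function. -/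
def T_MEc : Prop :=
  ∀ (K : Type) [Field K] [NumberField K] (χ : RCC K) (M : FI K), M ≠ 0 → ∀ s : ℂ, 1 < s.re →
    mellin (fun t => ffc χ M t - k0 χ M) s =
      (torsionOrder K : ℂ) * ((2 : ℂ) ^ (nrRealPlaces K + nrComplexPlaces K))⁻¹ * gS χ s *
        ((FractionalIdeal.absNorm M : ℝ) : ℂ) ^ (-s) *
        ∑' I : {I : Ideal (𝓞 K) // Pri K M I}, χ.ψ I.1 * (Ideal.absNorm I.1 : ℂ) ^ (-s)

/-- (CS) representatives of the ideal classes. -/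
def T_CSc : Prop :=
  ∀ (K : Type) [Field K] [NumberField K] (f : Ideal (𝓞 K)), f ≠ ⊥ →
    ∃ (ι : Type) (_ : Fintype ι) (M : ι → FI K),
    (∀ c, M c ≠ 0) ∧ (∀ I : Ideal (𝓞 K), I ≠ ⊥ → ∃! c, Pri K (M c) I) ∧
    ∀ I : Ideal (𝓞 K), I ≠ ⊥ → ∃! c, Pri K (du K ((f : FI K) * M c)) I

/-! ### The functional equation -/

/-- the functional equation and the bounds in vertical strips -/
def FEc {K : Type} [Field K] [NumberField K] (χ : RCC K) (Z Z' : ℂ → ℂ) (ε : ℂ) : Prop :=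
  IsZc χ Z ∧ IsZc χ.bar Z' ∧ ‖ε‖ = 1 ∧
    (∀ s : ℂ, s.im ≠ 0 → compc χ Z s = ε * compc χ.bar Z' (1 - s)) ∧
    ∀ b : ℝ, ∃ C : ℝ, ∀ s : ℂ, |s.re| ≤ b → 1 ≤ |s.im| →
      ‖compc χ Z s‖ ≤ C ∧ ‖compc χ.bar Z' s‖ ≤ C

/-- (HE) Hecke's theorem. -/
def T_HEc : Prop :=
  ∀ (K : Type) [Field K] [NumberField K] (χ : RCC K), ∃ (Z Z' : ℂ → ℂ) (ε : ℂ), FEc χ Z Z' ε

/-- (H1) `L`-functions of nontrivial characters are bounded near `1`. -/
def T_H1 : Prop :=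
  ∀ (K : Type) [Field K] [NumberField K] (χ : RCC K),
    (∃ I : Ideal (𝓞 K), χ.ψ I ≠ 0 ∧ χ.ψ I ≠ 1) → ∃ C : ℝ, ∀ s : ℝ, 1 < s → s ≤ 2 →
      ‖Lc χ s‖ ≤ C

/-- (GW) polynomial growth in vertical strips. -/
def T_GWc : Prop :=
  ∀ (K : Type) [Field K] [NumberField K] (χ : RCC K) (Z Z' : ℂ → ℂ) (ε : ℂ), FEc χ Z Z' ε →
    ∀ b : ℝ, ∃ C : ℝ, 0 < C ∧ ∀ s : ℂ, |s.re| ≤ b → 1 ≤ s.im → ‖Z s‖ ≤ C * s.im ^ C

/-- (EP) the Euler product with completely multiplicative coefficients. -/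
def T_EPc : Prop :=
  ∀ (K : Type) [Field K] [NumberField K] (χ : RCC K),
    (∀ s : ℂ, 1 < s.re → Summable (fun I : {I : Ideal (𝓞 K) // I ≠ ⊥} =>
      ‖χ.ψ I.1 * (Ideal.absNorm I.1 : ℂ) ^ (-s)‖)) ∧
    ∃ h : Fin (Module.finrank ℚ K) → ℕ → ℂ,
      (∀ j, h j 0 = 0) ∧ (∀ j, h j 1 = 1) ∧ (∀ j a b, h j (a * b) = h j a * h j b) ∧
      (∀ j a, ‖h j a‖ ≤ 1) ∧ (∀ j (p : ℕ), p.Prime → h j p = 0 ∨ ‖h j p‖ = 1) ∧
      (∀ s : ℂ, 1 < s.re → Lc χ s = ∏ j, ∑' m : ℕ, h j m * (m : ℂ) ^ (-s)) ∧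
      ∀ p k : ℕ, p.Prime → 1 ≤ k → ∑ j, h j p ^ k = spc χ p k

/-- the data of `χ` in an `LF` -/
def IsLF {K : Type} [Field K] [NumberField K] (χ : RCC K) (L : DL.LF) : Prop :=
  L.n = Module.finrank ℚ K ∧ (L.den = fun _ => 1) ∧
    (∀ s : ℂ, 1 < s.re → 0 < s.im → L.num s = Lc χ s) ∧
    Nat.card {j : Fin L.n // L.κ j = 0} = nrRealPlaces K - χ.S.card + nrComplexPlaces K ∧
    Nat.card {j : Fin L.n // L.κ j = 1} = χ.S.card + nrComplexPlaces K ∧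
    (∀ j (p : ℕ), p.Prime → L.h j p = 0 ∨ ‖L.h j p‖ = 1) ∧
    ∀ p k : ℕ, p.Prime → 1 ≤ k → ∑ j, L.h j p ^ k = spc χ p k

/-- (LK) the `L`-function of a primitive ray class character as an `LF`. -/
def T_LKc : Prop :=
  ∀ (K : Type) [Field K] [NumberField K] (χ : RCC K), ∃ L : DL.LF, IsLF χ L

end Pool.Agent.H28.RC
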