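import Pool.Agent.H28.RC.Targets1

/-!
# Hecke L-functions of ray class characters: basic lemmas
-/

set_option autoImplicit false

open NumberField NumberField.InfinitePlace NumberField.Units
  NumberField.Units.dirichletUnitTheorem MeasureTheory Set Filter Complex
open scoped nonZeroDivisors ENNReal

namespace Pool.Agent.H28.RC

open Pool.Agent.H25.HK Pool.Agent.H25

section
variable {K : Type} [Field K] [NumberField K]

lemma re_mul (v : RP K) (x z : K) : re v (x * z) = re v x * re v z := map_mul _ _ _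

lemma re_ne (v : RP K) {x : K} (hx : x ≠ 0) : re v x ≠ 0 := by
  unfold re
  rw [Ne, map_eq_zero]
  exact hx

lemma re_zero (v : RP K) : re v (0 : K) = 0 := map_zero _

lemma abs_re (v : RP K) (x : K) : |re v x| = v.1 x := by
  rw [← Real.norm_eq_abs]
  exact norm_embedding_of_isReal v.2 x

lemma re_neg (v : RP K) (x : K) : re v (-x) = -re v x := map_neg _ _

/-- the sign of `x` at one place -/
noncomputable def sg1 (v : RP K) (x : K) : ℂ := if 0 < re v x then (1 : ℂ) else -1

lemma sg_eq (S : Finset (RP K)) (x : K) : sg K S x = ∏ v ∈ S, sg1 v x := rfl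

lemma sg1_mul (v : RP K) {x z : K} (hx : x ≠ 0) (hz : z ≠ 0) :
    sg1 v (x * z) = sg1 v x * sg1 v z := by
  unfold sg1
  rw [re_mul]
  have h1 := re_ne v hx
  have h2 := re_ne v hz
  rcases lt_or_gt_of_ne h1 with h3 | h3 <;> rcases lt_or_gt_of_ne h2 with h4 | h4
  · rw [if_pos (mul_pos_of_neg_of_neg h3 h4), if_neg h3.not_gt, if_neg h4.not_gt]
    ring
  · rw [if_neg (mul_neg_of_neg_of_pos h3 h4).not_gt, if_neg h3.not_gt, if_pos h4]
    ring
  · rw [if_neg (mul_neg_of_pos_of_neg h3 h4).not_gt, if_pos h3, if_neg h4.not_gt]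
    ring
  · rw [if_pos (mul_pos h3 h4), if_pos h3, if_pos h4]
    ring

lemma sg_mul (S : Finset (RP K)) {x z : K} (hx : x ≠ 0) (hz : z ≠ 0) :
    sg K S (x * z) = sg K S x * sg K S z := by
  rw [sg_eq, sg_eq, sg_eq, ← Finset.prod_mul_distrib]
  exact Finset.prod_congr rfl fun v _ => sg1_mul v hx hz

lemma sg1_sq (v : RP K) (x : K) : sg1 v x * sg1 v x = 1 := by
  unfold sg1
  split_ifs <;> norm_num

lemma sg_sq (S : Finset (RP K)) (x : K) : sg K S x * sg K S x = 1 := by
  rw [sg_eq, ← Finset.prod_mul_distrib]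
  exact Finset.prod_eq_one fun v _ => sg1_sq v x

lemma sg_ne (S : Finset (RP K)) (x : K) : sg K S x ≠ 0 := by
  intro h
  have := sg_sq S x
  rw [h, mul_zero] at this
  exact zero_ne_one this

lemma norm_sg (S : Finset (RP K)) (x : K) : ‖sg K S x‖ = 1 := by
  rw [sg_eq, norm_prod]
  refine Finset.prod_eq_one fun v _ => ?_
  unfold sg1
  split_ifs <;> simp

lemma conj_sg (S : Finset (RP K)) (x : K) : (starRingEnd ℂ) (sg K S x) = sg K S x := by
  rw [sg_eq, map_prod]
  refine Finset.prod_congr rfl fun v _ => ?_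
  unfold sg1
  split_ifs <;> simp

lemma sg_one (S : Finset (RP K)) : sg K S (1 : K) = 1 := by
  rw [sg_eq]
  refine Finset.prod_eq_one fun v _ => ?_
  unfold sg1 re
  rw [map_one, if_pos one_pos]

lemma sg_neg_one (S : Finset (RP K)) : sg K S (-1 : K) = (-1) ^ S.card := by
  rw [sg_eq, ← Finset.prod_const]
  refine Finset.prod_congr rfl fun v _ => ?_
  unfold sg1 re
  rw [map_neg, map_one, if_neg (by norm_num)]

lemma sg_empty (x : K) : sg K ∅ x = 1 := rfl

lemma abs_ws (S : Finset (RP K)) (y : InfinitePlace K → ℝ) (x : K) :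
    |ws K S y x| = ∏ v ∈ S, Real.exp (y v.1 / 2) * v.1 x := by
  unfold ws
  rw [Finset.abs_prod]
  refine Finset.prod_congr rfl fun v _ => ?_
  rw [abs_mul, abs_re, abs_of_pos (Real.exp_pos _)]

lemma ws_empty (y : InfinitePlace K → ℝ) (x : K) : ws K ∅ y x = 1 := rfl

lemma ws_zero (S : Finset (RP K)) (hS : S ≠ ∅) (y : InfinitePlace K → ℝ) :
    ws K S y (0 : K) = 0 := by
  obtain ⟨v, hv⟩ := Finset.nonempty_iff_ne_empty.2 hS
  exact Finset.prod_eq_zero hv (by rw [re_zero, mul_zero])

lemma ws_mul (S : Finset (RP K)) (y : InfinitePlace K → ℝ) (a x : K) :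
    ws K S y (a * x) = (∏ v ∈ S, re v a) * ws K S y x := by
  unfold ws
  rw [← Finset.prod_mul_distrib]
  refine Finset.prod_congr rfl fun v _ => ?_
  rw [re_mul]
  ring

lemma sg_mul_ws (S : Finset (RP K)) (y : InfinitePlace K → ℝ) {x : K} (hx : x ≠ 0) :
    sg K S x * (ws K S y x : ℂ) = ((|ws K S y x| : ℝ) : ℂ) := by
  unfold ws
  rw [Finset.abs_prod, sg_eq]
  push_cast
  rw [← Finset.prod_mul_distrib]
  refine Finset.prod_congr rfl fun v _ => ?_
  rw [abs_mul, abs_of_pos (Real.exp_pos _)]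
  unfold sg1
  have h1 := re_ne v hx
  rcases lt_or_gt_of_ne h1 with h3 | h3
  · rw [if_neg h3.not_gt, abs_of_neg h3]
    push_cast
    ring
  · rw [if_pos h3, abs_of_pos h3]
    push_cast
    ring

lemma continuous_ws (S : Finset (RP K)) (x : K) :
    Continuous (fun y : InfinitePlace K → ℝ => ws K S y x) := by
  unfold ws
  fun_prop

lemma qK_shift (y : InfinitePlace K → ℝ) (x : K) :
    qK K (fun v => y v - Real.log 2) x = qK K y x / 2 := by
  unfold qK
  rw [Finset.sum_div]
  refine Finset.sum_congr rfl fun v _ => ?_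
  rw [Real.exp_sub, Real.exp_log two_pos]
  ring

/-- the linear factors are dominated by half of the Gaussian -/
lemma abs_ws_le (S : Finset (RP K)) (y : InfinitePlace K → ℝ) (x : K) :
    |ws K S y x| ≤ Real.exp (Real.pi * (qK K y x / 2)) := by
  have h1 : ∀ v : RP K, Real.exp (y v.1 / 2) * v.1 x ≤
      Real.exp (Real.pi / 2 * (Real.exp (y v.1) * (v.1 x) ^ 2)) := by
    intro v
    set u := Real.exp (y v.1 / 2) * v.1 x with hu
    have h2 : Real.exp (y v.1) * (v.1 x) ^ 2 = u ^ 2 := by
      rw [hu, mul_pow, ← Real.exp_nat_mul]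
      congr 2
      push_cast
      ring
    rw [h2]
    have h3 : u ≤ 1 + Real.pi / 2 * u ^ 2 := by
      have := Real.pi_gt_three
      nlinarith [sq_nonneg (u - 1), sq_nonneg u]
    have h4 := Real.add_one_le_exp (Real.pi / 2 * u ^ 2)
    linarith
  rw [abs_ws]
  have h5 : ∀ v : RP K, 0 ≤ Real.exp (y v.1 / 2) * v.1 x := fun v =>
    mul_nonneg (Real.exp_pos _).le (apply_nonneg _ _)
  calc ∏ v ∈ S, Real.exp (y v.1 / 2) * v.1 x
      ≤ ∏ v ∈ S, Real.exp (Real.pi / 2 * (Real.exp (y v.1) * (v.1 x) ^ 2)) :=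
        Finset.prod_le_prod (fun v _ => h5 v) fun v _ => h1 v
    _ = Real.exp (∑ v ∈ S, Real.pi / 2 * (Real.exp (y v.1) * (v.1 x) ^ 2)) :=
        (Real.exp_sum _ _).symm
    _ ≤ _ := by
        refine Real.exp_le_exp.2 ?_
        rw [← Finset.mul_sum]
        have h6 : ∑ v ∈ S, Real.exp (y v.1) * (v.1 x) ^ 2 ≤ qK K y x := by
          unfold qK
          classical
          have h7 : ∑ v ∈ S, Real.exp (y v.1) * (v.1 x) ^ 2 =
              ∑ v ∈ S.map ⟨Subtype.val, Subtype.val_injective⟩,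
                Real.exp (y v) * (v x) ^ 2 := by
            rw [Finset.sum_map]
            rfl
          rw [h7]
          refine (Finset.sum_le_sum_of_subset_of_nonneg (Finset.subset_univ _)
            fun v _ _ => by positivity).trans (Finset.sum_le_sum fun v _ => ?_)
          have h8 : (1 : ℝ) ≤ v.mult := by
            exact_mod_cast one_le_mult
          have h9 : 0 ≤ Real.exp (y v) * (v x) ^ 2 := by positivity
          nlinarith
        have := Real.pi_pos
        nlinarith

lemma ws_exp_le (S : Finset (RP K)) (y : InfinitePlace K → ℝ) (x : K) :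
    |ws K S y x| * Real.exp (-Real.pi * qK K y x) ≤
      Real.exp (-Real.pi * qK K (fun v => y v - Real.log 2) x) := by
  calc |ws K S y x| * Real.exp (-Real.pi * qK K y x)
      ≤ Real.exp (Real.pi * (qK K y x / 2)) * Real.exp (-Real.pi * qK K y x) :=
        mul_le_mul_of_nonneg_right (abs_ws_le S y x) (Real.exp_pos _).le
    _ = _ := by
        rw [← Real.exp_add, qK_shift]
        congr 1
        ring

lemma rcc_norm_le (χ : RCC K) (I : Ideal (𝓞 K)) : ‖χ.ψ I‖ ≤ 1 := by
  by_cases h0 : I = ⊥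
  · rw [h0, χ.map_bot, norm_zero]
    exact zero_le_one
  · by_cases h : I ⊔ χ.f = ⊤
    · exact (χ.norm_one I h0 h).le
    · rw [χ.eq_zero I h, norm_zero]
      exact zero_le_one

end

theorem pf_SM (hTH : T_TH) : T_SMc := by
  intro K _ _ S M hM y
  refine ⟨?_, ws_exp_le S y⟩
  refine Summable.of_nonneg_of_le (fun x => by positivity) (fun x => ws_exp_le S y x)
    (hTH K M hM (fun v => y v - Real.log 2)).1

end Pool.Agent.H28.RC
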