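import Pool.Agent.H28.RC.Targets3
import Pool.Agent.H29.RS.Targets

/-!
# Means of characters over the Frobenius elements and orders modulo `m`: targets, part 4
-/

set_option autoImplicit false

open NumberField Filter Topology

namespace Pool.Agent.H28.RC

/-- (H1L) the limit of a nontrivial `L`-function at `1`. -/
def T_H1L : Prop :=
  ∀ (K : Type) [Field K] [NumberField K] (χ : RCC K),
    (∃ I : Ideal (𝓞 K), χ.ψ I ≠ 0 ∧ χ.ψ I ≠ 1) →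
    ∃ l : ℂ, Tendsto (fun s : ℝ => Lc χ s) (𝓝[>] 1) (𝓝 l)

/-- (LGL) the logarithm of an `L`-function near `1`. -/
def T_LGL : Prop :=
  ∀ (K : Type) [Field K] [NumberField K] (χ : RCC K),
    (∃ C : ℝ, ∀ p : Nat.Primes, ‖spc χ p 1‖ ≤ C) ∧ (∀ s : ℝ, 1 < s → Lc χ s ≠ 0) ∧
    ∃ l : ℝ, Tendsto (fun s : ℝ => (∑' p : Nat.Primes, (spc χ p 1).re * (p : ℝ) ^ (-s)) -
      Real.log ‖Lc χ s‖) (𝓝[>] 1) (𝓝 l)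

/-- (URY) almost all primes are unramified. -/
def T_URY : Prop :=
  ∀ (F Ω : Type) [Field F] [NumberField F] [Field Ω] [NumberField Ω] [Algebra F Ω]
    [IsGalois F Ω], ∃ m : Ideal (𝓞 F), m ≠ ⊥ ∧ UR Ω m

/-- (NV1) the value at `1` is not zero. -/
def T_NV1 : Prop :=
  ∀ (F Ω : Type) [Field F] [NumberField F] [Field Ω] [NumberField Ω] [Algebra F Ω]
    [IsGalois F Ω] (μ : (Ω ≃ₐ[F] Ω) →* ℂˣ) (χ : RCC F) (B : Finset ℕ), μ ≠ 1 →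
    (∀ P : Ideal (𝓞 F), P.IsPrime → P ≠ ⊥ → (∀ p : ℕ, p.Prime → p ∈ B → (p : 𝓞 F) ∉ P) →
      ∀ g : Ω ≃ₐ[F] Ω, Fro P g → χ.ψ P = ((μ g : ℂˣ) : ℂ)) →
    (∃ I : Ideal (𝓞 F), χ.ψ I ≠ 0 ∧ χ.ψ I ≠ 1) ∧
    ∃ c : ℝ, 0 < c ∧ ∀ᶠ s : ℝ in 𝓝[>] 1, c ≤ ‖Lc χ s‖

open scoped Classical in
/-- (MNH) the mean of an induced character over the Frobenius elements. -/
def T_MNH : Prop :=
  ∀ (K : Type) [Field K] [NumberField K] [IsGalois ℚ K] (H : Subgroup (K ≃ₐ[ℚ] K))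
    (lam : H →* ℂˣ), ∃ (w : ℕ → ℝ) (B : Finset ℕ), (∃ C : ℝ, ∀ p : Nat.Primes, |w p| ≤ C) ∧
    Pool.Agent.H29.RT.Mean w (if lam = 1 then 1 else 0) ∧
    ∀ p : ℕ, p.Prime → p ∉ B → ∀ Q : Ideal (𝓞 K), Q.IsPrime → (p : 𝓞 K) ∈ Q →
      ∀ φ : K ≃ₐ[ℚ] K, (∀ x : 𝓞 K, φ • x - x ^ p ∈ Q) → w p = (indc H lam φ).re

/-- (MNB) the mean of the square of the absolute value of a character. -/
def T_MNB : Prop :=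
  ∀ (R : Pool.Agent.H25.DL.ArtinRep) (m : ℕ) (w : ℕ → ℝ), 1 ≤ m →
    (∀ p : Nat.Primes, w p = ‖LinearMap.trace ℂ R.V (R.fr p) / m‖ ^ 2) →
    Pool.Agent.H29.RT.Mean w (Pool.Agent.H29.RT.ip R / m ^ 2)

/-- (GAG) orders modulo `m` for all Artin `L`-functions. -/
def T_GAG : Prop :=
  ∀ (R : Pool.Agent.H25.DL.ArtinRep) (Λ : ℂ → ℂ) (m : ℕ) (κ ε ρ : ℝ),
    Pool.Agent.H25.HK.IsArtin R Λ → 1 ≤ R.dim → (R.dim : ℝ) < 2 * κ * m → κ ≤ 1 →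
    Pool.Agent.H29.RT.ip R ≠ (m : ℝ) ^ 2 → 0 < ε →
    (Pool.Agent.H29.RT.ip R < (m : ℝ) ^ 2 → ρ = min κ (4 * κ - 2 * ((R.dim : ℝ) / m))) →
    ((m : ℝ) ^ 2 < Pool.Agent.H29.RT.ip R → ρ = min κ (2 * κ - (R.dim : ℝ) / m)) →
    ∃ T₀ : ℝ, ∀ T : ℝ, T₀ ≤ T → ∃ Z : Finset ℂ, T ^ (ρ - ε) ≤ Z.card ∧
      ∀ z ∈ Z, T ≤ z.im ∧ z.im ≤ T + T ^ κ ∧
        ∀ j : ℕ, meromorphicOrderAt Λ z ≠ ((m * j : ℕ) : ℤ)

end Pool.Agent.H28.RC
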