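import Pool.Agent.H28.RC.Basic
import Pool.Agent.H63.HK.WP

/-!
# Hecke L-functions of ray class characters: module WP (the weak functional equation pair)
-/

set_option autoImplicit false

open NumberField NumberField.InfinitePlace NumberField.Units
  NumberField.Units.dirichletUnitTheorem MeasureTheory Set Filter Complex Asymptotics
open scoped nonZeroDivisors ENNReal

namespace Pool.Agent.H28.RC

open Pool.Agent.H25.HK Pool.Agent.H63.HK

open scoped Classical in
section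

variable {K : Type} [Field K] [NumberField K]

theorem wp_cont0 (hCT : T_CTc) (hCM : T_CM) (χ : RCC K) (M : FI K) (hM : M ≠ 0) :
    Continuous (tf K χ.S M (cf χ M)) :=
  hCT K χ.S M (cf χ M) hM (hCM K χ M hM).2.1

theorem yc_cont (hYC : T_YC) (τ : ℝ) : Continuous (fun z : logSpace K => yc K τ z) := by
  have h1 := (hYC K).2.2.2.2.1
  have h2 : Continuous (fun z : logSpace K => ((τ, z) : ℝ × logSpace K)) := by fun_prop
  exact h1.comp h2

theorem gn_cont1 (hYC : T_YC) (T : (InfinitePlace K → ℝ) → ℂ) (hT : Continuous T) (τ : ℝ) :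
    Continuous (fun z : logSpace K => T (yc K τ z)) :=
  hT.comp (yc_cont hYC τ)

theorem cont_int (hFD : T_FD) (g : logSpace K → ℂ) (hg : Continuous g) :
    IntegrableOn g (Fd K) := by
  obtain ⟨hmeas, ⟨B, hB⟩, -⟩ := hFD K
  exact (hg.continuousOn.integrableOn_compact (bx_compact K B)).mono_set (fd_sub K B hB)

theorem cont_par (hFD : T_FD) (f : ℝ → logSpace K → ℂ)
    (hf : Continuous (fun p : ℝ × logSpace K => f p.1 p.2)) :
    Continuous (fun τ : ℝ => ∫ z in Fd K, f τ z) := by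
  obtain ⟨hmeas, ⟨B, hB⟩, -⟩ := hFD K
  have h1 := continuous_parametric_integral_of_continuous (μ := volume.restrict (Fd K))
    (f := f) (s := bx K B) hf (bx_compact K B)
  have h2 : (volume.restrict (Fd K)).restrict (bx K B) = volume.restrict (Fd K) := by
    rw [Measure.restrict_restrict (bx_compact K B).measurableSet,
      inter_eq_self_of_subset_right (fd_sub K B hB)]
  rw [h2] at h1
  exact h1

theorem gn_par (hFD : T_FD) (hYC : T_YC) (T : (InfinitePlace K → ℝ) → ℂ) (hT : Continuous T) :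
    Continuous (fun τ : ℝ => ∫ z in Fd K, T (yc K τ z)) := by
  refine cont_par hFD (fun τ z => T (yc K τ z)) ?_
  exact hT.comp (hYC K).2.2.2.2.1

theorem gn_locInt (hFD : T_FD) (hYC : T_YC) (T : (InfinitePlace K → ℝ) → ℂ) (hT : Continuous T) :
    LocallyIntegrableOn (fun t : ℝ => ∫ z in Fd K, T (yc K (Real.log t) z)) (Ioi 0) := by
  apply ContinuousOn.locallyIntegrableOn _ measurableSet_Ioi
  refine (gn_par hFD hYC T hT).comp_continuousOn (Real.continuousOn_log.mono ?_)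
  intro x hx
  exact ne_of_gt hx

/-- reflection of the fundamental domain for complex valued periodic functions -/
theorem fd_refl (hFD : T_FD) (g : logSpace K → ℂ)
    (hg : ∀ z, ∀ l ∈ unitLattice K, g (z + l) = g z) (hi : IntegrableOn g (Fd K))
    (hi' : IntegrableOn (fun z => g (-z)) (Fd K)) :
    ∫ z in Fd K, g (-z) = ∫ z in Fd K, g z := by
  have h := (hFD K).2.2.2.2.2.2
  have hre := h (fun z => (g z).re) (fun z l hl => by rw [hg z l hl])
  have him := h (fun z => (g z).im) (fun z l hl => by rw [hg z l hl])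
  have e1 : (∫ z in Fd K, g (-z)).re = ∫ z in Fd K, (g (-z)).re := by
    have := integral_re (𝕜 := ℂ) hi'
    exact this.symm
  have e2 : (∫ z in Fd K, g (-z)).im = ∫ z in Fd K, (g (-z)).im := by
    have := integral_im (𝕜 := ℂ) hi'
    exact this.symm
  have e3 : (∫ z in Fd K, g z).re = ∫ z in Fd K, (g z).re := by
    have := integral_re (𝕜 := ℂ) hi
    exact this.symm
  have e4 : (∫ z in Fd K, g z).im = ∫ z in Fd K, (g z).im := by
    have := integral_im (𝕜 := ℂ) hi
    exact this.symm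
  apply Complex.ext
  · rw [e1, e3]
    exact hre
  · rw [e2, e4]
    exact him

theorem gn_refl (hFD : T_FD) (hYC : T_YC) (T : (InfinitePlace K → ℝ) → ℂ) (hT : Continuous T)
    (τ : ℝ) (hp : ∀ z, ∀ l ∈ unitLattice K, T (yc K τ (z + l)) = T (yc K τ z)) :
    ∫ z in Fd K, T (yc K τ (-z)) = ∫ z in Fd K, T (yc K τ z) := by
  have h1 := gn_cont1 hYC T hT τ
  have h2 := h1.comp (continuous_neg (G := logSpace K))
  exact fd_refl hFD (fun z => T (yc K τ z)) hp (cont_int hFD _ h1) (cont_int hFD _ h2)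

theorem gn_top (hFD : T_FD) (hYC : T_YC) (T : (InfinitePlace K → ℝ) → ℂ) (hT : Continuous T)
    (c0 : ℂ) (C c : ℝ) (hc : 0 < c) (hb : ∀ t : ℝ, 1 ≤ t → ∀ z ∈ Fd K,
      ‖T (yc K (Real.log t) z) - c0‖ ≤ C * Real.exp (-c * t ^ ((2 : ℝ) / Module.finrank ℚ K)))
    (r : ℝ) : (fun t : ℝ => (∫ z in Fd K, T (yc K (Real.log t) z)) -
      c0 * ((volume.real (Fd K) : ℝ) : ℂ)) =O[atTop] (fun t : ℝ => t ^ r) := by
  have hmeas := (hFD K).1
  have hlt := (hFD K).2.2.2.1
  set a : ℝ := (2 : ℝ) / Module.finrank ℚ K with ha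
  have hapos : 0 < a := by
    have : 0 < Module.finrank ℚ K := Module.finrank_pos
    positivity
  have h1 : ∀ t : ℝ, 1 ≤ t → ‖(∫ z in Fd K, T (yc K (Real.log t) z)) -
      c0 * ((volume.real (Fd K) : ℝ) : ℂ)‖ ≤
      (volume.real (Fd K) * C) * Real.exp (-c * t ^ a) := by
    intro t ht
    have e1 : (∫ z in Fd K, T (yc K (Real.log t) z)) - c0 * ((volume.real (Fd K) : ℝ) : ℂ) =
        ∫ z in Fd K, (T (yc K (Real.log t) z) - c0) := by
      rw [integral_sub (cont_int hFD _ (gn_cont1 hYC T hT _))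
        (integrableOn_const (hs := hlt.ne)), setIntegral_const, Complex.real_smul]
      ring
    rw [e1]
    have e2 := norm_setIntegral_le_of_norm_le_const (μ := volume) (s := Fd K) hlt
      (C := C * Real.exp (-c * t ^ a)) (f := fun z => T (yc K (Real.log t) z) - c0)
      (fun z hz => hb t ht z hz)
    calc _ ≤ _ := e2
      _ = _ := by ring
  have h2 : (fun t : ℝ => Real.exp (-c * t ^ a)) =O[atTop] (fun t : ℝ => t ^ r) := by
    have h3 := (isLittleO_exp_neg_mul_rpow_atTop hc (r / a)).isBigO.comp_tendsto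
      (tendsto_rpow_atTop hapos)
    refine h3.congr' (Eventually.of_forall fun t => rfl) ?_
    filter_upwards [eventually_ge_atTop 0] with t ht
    simp only [Function.comp]
    rw [← Real.rpow_mul ht, mul_div_cancel₀ _ hapos.ne']
  refine IsBigO.trans ?_ h2
  refine IsBigO.of_bound (volume.real (Fd K) * C) ?_
  filter_upwards [eventually_ge_atTop 1] with t ht
  rw [Real.norm_eq_abs, Real.abs_exp]
  exact h1 t ht

/-- the functional equation of the theta function in the coordinates `yc` -/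
theorem wp_theta (hTH : T_THc) (hYC : T_YC) (hCP : T_CP) (hRX : T_RX) (χ : RCC K) (W : ℂ)
    (hW : IsW χ W) (M : FI K) (hM : M ≠ 0) (x : ℝ) (hx : 0 < x) (z : logSpace K) :
    tf K χ.S M (cf χ M) (yc K (Real.log (1 / x)) z) =
      (((cv K ((χ.f : FI K) * M))⁻¹ : ℝ) : ℂ) * (-I) ^ χ.S.card * W * (x : ℂ) *
        tf K χ.S (du' χ M) (cf χ.bar (du' χ M)) (yc K (Real.log x) (-z)) := by
  obtain ⟨hY1, hY2, -⟩ := hYC K
  obtain ⟨X, hX, -⟩ := hRX K χ.f M χ.f_ne hM
  have h0 : ∀ y, tf K χ.S (du K ((χ.f : FI K) * M)) (ft K X (cf χ M)) y =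
      W * tf K χ.S (du' χ M) (cf χ.bar (du' χ M)) y := by
    intro y
    unfold tf
    rw [← tsum_mul_left]
    refine tsum_congr fun v => ?_
    rw [hW M X hM hX v.1 v.2]
    ring
  rw [hTH K χ.S χ.f M X (cf χ M) χ.f_ne hM hX (hCP K χ M hM), h0, hY1]
  have e1 : Real.log (1 / x) = -Real.log x := by rw [one_div, Real.log_inv]
  rw [e1]
  have e2 : -yc K (-Real.log x) z = yc K (Real.log x) (-z) := by
    have := hY2 (Real.log x) (-z)
    rw [neg_neg] at this
    rw [this, neg_neg]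
  rw [e2]
  have e3 : Real.exp (-(2 * -Real.log x) / 2) = x := by
    rw [show -(2 * -Real.log x) / 2 = Real.log x by ring, Real.exp_log hx]
  rw [e3]
  generalize tf K χ.S (du' χ M) (cf χ.bar (du' χ M)) (yc K (Real.log x) (-z)) = q
  push_cast
  ring

theorem wp_feq (hTH : T_THc) (hUI : T_UIc) (hCT : T_CTc) (hYC : T_YC) (hFD : T_FD) (hDU : T_DU)
    (hCM : T_CM) (hCP : T_CP) (hRX : T_RX) (χ : RCC K) (W : ℂ) (hW : IsW χ W) (M : FI K)
    (hM : M ≠ 0) (x : ℝ) (hx : 0 < x) :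
    ffc χ M (1 / x) = ((((cv K ((χ.f : FI K) * M))⁻¹ : ℝ) : ℂ) * (-I) ^ χ.S.card * W) *
      ((x : ℂ) * ffc χ.bar (du' χ M) x) := by
  have hfM : (χ.f : FI K) * M ≠ 0 := by
    refine mul_ne_zero ?_ hM
    rw [Ne, FractionalIdeal.coeIdeal_eq_zero]
    exact χ.f_ne
  have hM' : du' χ M ≠ 0 := (hDU K _ hfM).1
  have h1 := wp_theta hTH hYC hCP hRX χ W hW M hM x hx
  have h2 : Continuous (tf K χ.S (du' χ M) (cf χ.bar (du' χ M))) :=
    wp_cont0 hCT hCM χ.bar (du' χ M) hM'
  have h3 : ∀ z, ∀ l ∈ unitLattice K,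
      tf K χ.S (du' χ M) (cf χ.bar (du' χ M)) (yc K (Real.log x) (z + l)) =
        tf K χ.S (du' χ M) (cf χ.bar (du' χ M)) (yc K (Real.log x) z) := by
    intro z l hl
    obtain ⟨u, rfl⟩ := mem_unitLattice_exists K l hl
    exact (hUI K χ.bar (du' χ M) (Real.log x) z u hM').2
  have e1 : ffc χ M (1 / x) = ∫ z in Fd K, tf K χ.S M (cf χ M) (yc K (Real.log (1 / x)) z) := rfl
  have e2 : ffc χ.bar (du' χ M) x =
      ∫ z in Fd K, tf K χ.S (du' χ M) (cf χ.bar (du' χ M)) (yc K (Real.log x) z) := rfl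
  rw [e1, e2]
  generalize tf K χ.S (du' χ M) (cf χ.bar (du' χ M)) = T at h1 h2 h3 ⊢
  generalize tf K χ.S M (cf χ M) = T' at h1 ⊢
  rw [← gn_refl hFD hYC T h2 (Real.log x) h3]
  generalize (((cv K ((χ.f : FI K) * M))⁻¹ : ℝ) : ℂ) * (-I) ^ χ.S.card * W = q at h1 ⊢
  rw [← mul_assoc, ← integral_const_mul]
  exact integral_congr_ae (Eventually.of_forall h1)

theorem wp_top (hCT : T_CTc) (hYC : T_YC) (hCM : T_CM) (hFD : T_FD) (hDC : T_DCc) (χ : RCC K)
    (M : FI K) (hM : M ≠ 0) (r : ℝ) :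
    (fun t => ffc χ M t - k0 χ M) =O[atTop] (fun t : ℝ => t ^ r) := by
  obtain ⟨C, c, hc, hb⟩ := hDC K χ.S M (cf χ M) hM (hCM K χ M hM).2.1
  have h1 := gn_top hFD hYC _ (wp_cont0 hCT hCM χ M hM) _ C c hc hb r
  have e1 : k0 χ M = (if χ.S = ∅ then cf χ M 0 else 0) * ((volume.real (Fd K) : ℝ) : ℂ) := by
    unfold k0
    split_ifs
    · rfl
    · rw [zero_mul]
  rw [e1]
  exact h1

theorem wp_loc (hCT : T_CTc) (hYC : T_YC) (hCM : T_CM) (hFD : T_FD) (χ : RCC K) (M : FI K)
    (hM : M ≠ 0) : LocallyIntegrableOn (fun t => ffc χ M t) (Ioi 0) :=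
  gn_locInt hFD hYC _ (wp_cont0 hCT hCM χ M hM)

theorem pf_WP (hTH : T_THc) (hUI : T_UIc) (hFD : T_FD) (hCT : T_CTc) (hDC : T_DCc) (hDU : T_DU)
    (hYC : T_YC) (hCM : T_CM) (hCP : T_CP) (hCN : T_CN) (hRX : T_RX) (_hID : T_ID) : T_WPc := by
  intro K _ _ χ W M hW hM
  have hfM : (χ.f : FI K) * M ≠ 0 := by
    refine mul_ne_zero ?_ hM
    rw [Ne, FractionalIdeal.coeIdeal_eq_zero]
    exact χ.f_ne
  obtain ⟨hd, -, -, -, -⟩ := hDU K _ hfM
  have hN := (hDU K _ hfM).2.2.2.1
  have hcv : cv K ((χ.f : FI K) * M) ≠ 0 := by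
    unfold cv
    refine mul_ne_zero ?_ hN.ne'
    rw [Real.sqrt_ne_zero']
    exact abs_pos.mpr (Int.cast_ne_zero.mpr (discr_ne_zero K))
  have hW0 : W ≠ 0 := by
    rintro rfl
    have h1 := hCN K χ 0 hW
    rw [norm_zero, zero_pow two_ne_zero] at h1
    have h2 : Ideal.absNorm χ.f ≠ 0 := by
      rw [Ne, Ideal.absNorm_eq_zero_iff]
      exact χ.f_ne
    exact h2 (by exact_mod_cast h1.symm)
  have hε : (((cv K ((χ.f : FI K) * M))⁻¹ : ℝ) : ℂ) * (-I) ^ χ.S.card * W ≠ 0 := by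
    refine mul_ne_zero (mul_ne_zero ?_ (pow_ne_zero _ (neg_ne_zero.2 I_ne_zero))) hW0
    rw [Ne, Complex.ofReal_eq_zero, inv_eq_zero]
    exact hcv
  have hfeq := wp_feq hTH hUI hCT hYC hFD hDU hCM hCP hRX χ W hW M hM
  have hf1 := wp_loc hCT hYC hCM hFD χ M hM
  have hg1 := wp_loc hCT hYC hCM hFD χ.bar (du' χ M) hd
  have hf2 := wp_top hCT hYC hCM hFD hDC χ M hM
  have hg2 := wp_top hCT hYC hCM hFD hDC χ.bar (du' χ M) hd
  refine ⟨{ f := fun t => ffc χ M t
            g := fun t => ffc χ.bar (du' χ M) t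
            k := 1
            ε := (((cv K ((χ.f : FI K) * M))⁻¹ : ℝ) : ℂ) * (-I) ^ χ.S.card * W
            f₀ := k0 χ M
            g₀ := k0 χ.bar (du' χ M)
            hf_int := hf1
            hg_int := hg1
            hk := one_pos
            hε := hε
            h_feq := fun x hx => by
              rw [hfeq x hx]
              simp only [Real.rpow_one, smul_eq_mul]
              ring
            hf_top := hf2
            hg_top := hg2 },
    fun t => rfl, fun t => rfl, rfl, rfl, rfl, rfl⟩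

end

end Pool.Agent.H28.RC
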