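import Pool.Agent.H28.RC.Targets4

/-!
# Existence of the Artin L-functions as meromorphic functions: targets, part 5
-/

set_option autoImplicit false

open NumberField Filter Topology

namespace Pool.Agent.H28.RC

/-- (MER) the `L`-function of a ray class character is meromorphic on the complex plane. -/
def T_MER : Prop :=
  ∀ (K : Type) [Field K] [NumberField K] (χ : RCC K), ∃ Z : ℂ → ℂ,
    (∀ s : ℂ, MeromorphicAt Z s) ∧ ∀ s : ℂ, 1 < s.re → Z s = Lc χ s

/-- (EXA) existence of the Artin `L`-functions (Brauer). -/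
def T_EXA : Prop :=
  ∀ R : Pool.Agent.H25.DL.ArtinRep, ∃ Λ : ℂ → ℂ, Pool.Agent.H25.HK.IsArtin R Λ

end Pool.Agent.H28.RC
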