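import Pool.Agent.H28.RC.All3
import Pool.Agent.H28.RC.Targets5
import Pool.Agent.H28.RC.WP
import Pool.Agent.H54.RC.NTB
import Pool.Agent.H60.RC.MER
import Pool.Agent.H60.RC.EXA
import Pool.Agent.H95.RQ.Asm

/-!
# Hecke L-functions, Artin reciprocity, Brauer induction, all Artin L-functions: final assembly

All theorems of this file are free of hypotheses.
-/

set_option autoImplicit false

namespace Pool.Agent.H28.RC

open Pool.Agent.H25.HK

theorem T_WPc_proved : T_WPc :=
  pf_WP c_TH c_UI Pool.Agent.H66.HK.fd c_CT c_DC T_DU_proved T_YC_proved c_CM c_CP c_CN c_RX c_ID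

/-- Hecke: the functional equation of the `L`-function of a primitive ray class character. -/
theorem T_HEc_proved : T_HEc := c_HE T_WPc_proved

/-- Hecke: the `L`-function of a nontrivial character is bounded near `1`. -/
theorem T_H1_proved : T_H1 := c_H1 T_WPc_proved

theorem T_LKc_proved : T_LKc := c_LK T_WPc_proved

theorem T_EPc_proved : T_EPc := c_EP

theorem T_PRM_proved : T_PRM := c_PRM

theorem T_SPA_proved : T_SPA := Pool.Agent.H68.RC.pf_SPA

theorem T_FNR_proved : T_FNR := Pool.Agent.H67.RC.pf_FNR

theorem T_NTB_proved : T_NTB := Pool.Agent.H54.RC.pf_NTB c_NTA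

theorem T_LGN_proved : T_LGN := c_LGN T_WPc_proved

/-- the second inequality of class field theory -/
theorem T_SEC_proved : T_SEC := c_SEC T_WPc_proved

/-- the first inequality of class field theory for cyclic extensions -/
theorem T_FIQ_proved : T_FIQ := Pool.Agent.H95.RQ.Asm.all.1

/-- Brauer's induction theorem -/
theorem T_BRA_proved : T_BRA := Pool.Agent.H95.RQ.Asm.all.2

/-- Artin reciprocity for cyclic extensions -/
theorem T_RC0_proved : T_RC0 := c_RC0 T_WPc_proved T_NTB_proved T_FIQ_proved

/-- Artin reciprocity for one-dimensional characters of Galois groups -/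
theorem T_RC1_proved : T_RC1 := c_RC1 T_WPc_proved T_NTB_proved T_FIQ_proved

theorem T_REC_proved : T_REC := c_REC T_WPc_proved T_NTB_proved T_FIQ_proved

theorem T_CM0_proved : T_CM0 :=
  Pool.Agent.H51.RC.pf_CM0 T_BRA_proved T_REC_proved T_FNR_proved Pool.Agent.H11.HK.tr

/-- the Euler factors of an Artin `L`-function at all primes, in terms of Hecke `L`-functions -/
theorem T_CM3_proved : T_CM3 := c_CM3 T_WPc_proved

/-- every Artin `L`-function over the rationals is a product of powers of Hecke `L`-functions, with
its functional equation -/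
theorem T_ALL_proved : T_ALL := c_ALL T_WPc_proved T_BRA_proved T_REC_proved

theorem T_MER_proved : T_MER :=
  Pool.Agent.H60.RC.pf_MER T_WPc_proved c_ME c_CS c_EP T_DU_proved c_CW

/-- Brauer: every Artin `L`-function is meromorphic on the complex plane -/
theorem T_EXA_proved : T_EXA :=
  Pool.Agent.H60.RC.pf_EXA T_MER_proved c_EP T_CM0_proved T_CM3_proved Pool.Agent.H11.HK.lp
    Pool.Agent.H11.HK.pw Pool.Agent.H48.DL.al

end Pool.Agent.H28.RC
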