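import Pool.Agent.H28.RC.Interface
import Pool.Agent.H28.RC.Basic

/-!
# All Artin L-functions over the rationals: comparison with twists (targets, part 2)
-/

set_option autoImplicit false

open NumberField NumberField.InfinitePlace Complex

namespace Pool.Agent.H28.RC

open Pool.Agent.H25.HK Pool.Agent.H25

/-! ### Roots of unity, characters -/

/-- the residues prime to `M` -/
def un (M : ℕ) : Finset ℕ := (Finset.range M).filter fun a => a.Coprime M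

/-- (ROU) linear relations between roots of unity are preserved by powers. -/
def T_ROU : Prop :=
  ∀ (M a : ℕ), 1 ≤ M → a.Coprime M → ∀ (ι : Type) [Fintype ι] (c : ι → ℚ) (z : ι → ℂ),
    (∀ i, z i ^ M = 1) → ∑ i, (c i : ℂ) * z i = 0 → ∑ i, (c i : ℂ) * z i ^ a = 0

/-- (RAM) Ramanujan sums are integers. -/
def T_RAM : Prop :=
  ∀ (M : ℕ) (z : ℂ), 1 ≤ M → z ^ M = 1 → ∃ n : ℤ, ∑ a ∈ un M, z ^ a = n

/-- (DIR) Dirichlet characters with a given value at `p`. -/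
def T_DIR : Prop :=
  ∀ (p M : ℕ) (ζ : ℂ), p.Prime → 1 ≤ M → ζ ^ M = 1 →
    ∃ (q : ℕ) (_ : NeZero q) (θ : DirichletCharacter ℂ q), q.Coprime p ∧ θ (p : ZMod q) = ζ

/-- (AIC) Artin induction for rational valued class functions. -/
def T_AIC : Prop :=
  ∀ (G : Type) [Group G] [Finite G] (φ : G → ℂ), (∀ g, ∃ q : ℚ, φ g = q) →
    (∀ x g, φ (x⁻¹ * g * x) = φ g) → (∀ g (j : ℕ), j.Coprime (Nat.card G) → φ (g ^ j) = φ g) →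
    ∃ (N : ℕ) (s : Finset (Subgroup G)) (b : Subgroup G → ℤ), 1 ≤ N ∧
      ∀ g, (N : ℂ) * φ g = ∑ H ∈ s, (b H : ℂ) * (pc H g : ℂ)

/-- (SEP) separation of the Frobenius eigenvalues by twists. -/
def T_SEP : Prop :=
  ∀ (M : ℕ), 2 ≤ M → ∀ (A : Type) [Fintype A] (β e : A → ℂ), (∀ l, β l = 0 ∨ β l ^ M = 1) →
    (∀ ζ : ℂ, ζ ^ M = 1 → ∃ M' : ℕ, 2 ≤ M' ∧ M ∣ M' ∧ ∀ k : ℕ, 1 ≤ k →
      ∑ a ∈ un M', ζ ^ (a * k) * ∑ l, e l * β l ^ (a * k) = 0) →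
    ∀ k : ℕ, 1 ≤ k → ∑ l, e l * β l ^ k = 0

/-! ### Frobenius elements -/

/-- the average of a function over `Fr^k I` -/
noncomputable def tp (R : DL.ArtinRep) (p : Nat.Primes) (k : ℕ) (φ : (R.K ≃ₐ[ℚ] R.K) → ℂ) : ℂ :=
  (Nat.card (R.In p) : ℂ)⁻¹ * ∑ᶠ g : R.In p, φ (R.Fr p ^ k * (g : R.K ≃ₐ[ℚ] R.K))

/-- (TWK) adjoining the `q`-th roots of unity. -/
def T_TWK : Prop :=
  ∀ (R : DL.ArtinRep) (q : ℕ) [NeZero q], ∃ (R' : DL.ArtinRep)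
    (res : (R'.K ≃ₐ[ℚ] R'.K) →* (R.K ≃ₐ[ℚ] R.K)) (c : (R'.K ≃ₐ[ℚ] R'.K) →* (ZMod q)ˣ),
    ∀ (p : Nat.Primes), Nat.Coprime p q → ∀ (θ : DirichletCharacter ℂ q)
      (φ : (R.K ≃ₐ[ℚ] R.K) → ℂ) (k : ℕ),
      tp R' p k (fun g => φ (res g) * θ ((c g : (ZMod q)ˣ) : ZMod q)) =
        θ ((p : ℕ) : ZMod q) ^ k * tp R p k φ

/-- (FNR) almost all primes are unramified. -/
def T_FNR : Prop :=
  ∀ (R : DL.ArtinRep), ∃ B : Finset ℕ, ∀ p : Nat.Primes, (p : ℕ) ∉ B → R.In p = ⊥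

/-- (EIG) eigenvalues. -/
def T_EIG : Prop :=
  ∀ (V : Type) [AddCommGroup V] [Module ℂ V] [FiniteDimensional ℂ V] (A : Module.End ℂ V)
    (m : ℕ), 1 ≤ m → A ^ (m + 1) = A → ∃ α : Fin (Module.finrank ℂ V) → ℂ,
      (∀ j, α j = 0 ∨ α j ^ m = 1) ∧
      (∀ X : ℂ, LinearMap.det (1 - X • A) = ∏ j, (1 - α j * X)) ∧
      ∀ k : ℕ, 1 ≤ k → LinearMap.trace ℂ V (A ^ k) = ∑ j, α j ^ k

/-- (TRX) the Galois conjugates of a character. -/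
def T_TRX : Prop :=
  ∀ (R : DL.ArtinRep),
    (∀ p : Nat.Primes, R.fr p ^ (Nat.card (R.K ≃ₐ[ℚ] R.K) + 1) = R.fr p) ∧
    ∀ (M : ℕ), 2 ≤ M → Nat.card (R.K ≃ₐ[ℚ] R.K) ∣ M → ∀ (p : Nat.Primes) (k a : ℕ), 1 ≤ k →
      1 ≤ a → a.Coprime M →
      tp R p k (fun g => LinearMap.trace ℂ R.V (R.rho (g ^ a))) =
        LinearMap.trace ℂ R.V (R.fr p ^ (k * a))

/-! ### Operations on ray class characters -/

/-- (TRV) the trivial character. -/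
noncomputable def triv (K : Type) [Field K] [NumberField K] : RCC K where
  f := ⊤
  S := ∅
  ψ I := open scoped Classical in if I = ⊥ then 0 else 1
  f_ne := top_ne_bot
  map_one := by rw [if_neg top_ne_bot]
  map_mul I J := by
    by_cases hI : I = ⊥
    · simp [hI]
    · by_cases hJ : J = ⊥
      · simp [hJ]
      · rw [if_neg hI, if_neg hJ, if_neg (show I * J ≠ ⊥ from mul_ne_zero hI hJ), one_mul]
  map_bot := by simp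
  norm_one I h _ := by simp [h]
  eq_zero I h := by simp at h
  princ a ha _ := by
    rw [if_neg (by simpa using ha)]
    rfl
  prim P hP h := absurd (top_le_iff.1 h) hP.ne_top

/-- (POW) powers prime to the order. -/
def T_POW : Prop :=
  ∀ (K : Type) [Field K] [NumberField K] (χ : RCC K) (m a : ℕ), 1 ≤ m → Even m →
    (∀ I, χ.ψ I = 0 ∨ χ.ψ I ^ m = 1) → a.Coprime m →
    ∃ χ' : RCC K, χ'.f = χ.f ∧ χ'.S = χ.S ∧ ∀ I, χ'.ψ I = χ.ψ I ^ a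

/-- a ray class character modulo `m`, not necessarily primitive -/
structure PC {K : Type} [Field K] [NumberField K] (m : Ideal (𝓞 K)) (ψ : Ideal (𝓞 K) → ℂ) :
    Prop where
  ne : m ≠ ⊥
  one : ψ ⊤ = 1
  mul : ∀ I J, ψ (I * J) = ψ I * ψ J
  bot : ψ ⊥ = 0
  norm : ∀ I, I ≠ ⊥ → I ⊔ m = ⊤ → ‖ψ I‖ = 1
  zero : ∀ I, I ⊔ m ≠ ⊤ → ψ I = 0
  ray : ∀ a : 𝓞 K, a ≠ 0 → a - 1 ∈ m → (∀ v : RP K, 0 < re v (a : K)) → ψ (Ideal.span {a}) = 1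

/-- (SGN) approximation with prescribed signs. -/
def T_SGN : Prop :=
  ∀ (K : Type) [Field K] [NumberField K] (m : Ideal (𝓞 K)) (a : 𝓞 K) (T : Set (RP K)), m ≠ ⊥ →
    ∃ b : 𝓞 K, b - a ∈ m ∧ b ≠ 0 ∧ (∀ v ∈ T, re v (b : K) < 0) ∧ ∀ v ∉ T, 0 < re v (b : K)

/-- (PRS) the signs of a ray class character. -/
def T_PRS : Prop :=
  ∀ (K : Type) [Field K] [NumberField K] (m : Ideal (𝓞 K)) (ψ : Ideal (𝓞 K) → ℂ), PC m ψ →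
    ∃ S : Finset (RP K), ∀ a : 𝓞 K, a ≠ 0 → a - 1 ∈ m → ψ (Ideal.span {a}) = sg K S a

/-- (PRE) extension of a character to the ideals prime to a divisor `f` of the modulus. -/
def T_PRE : Prop :=
  ∀ (K : Type) [Field K] [NumberField K] (m f : Ideal (𝓞 K)) (ψ : Ideal (𝓞 K) → ℂ)
    (S : Finset (RP K)), PC m ψ → m ≤ f →
    (∀ a : 𝓞 K, a ≠ 0 → Ideal.span {a} ⊔ m = ⊤ → a - 1 ∈ f → ψ (Ideal.span {a}) = sg K S a) →
    ∃ ψ' : Ideal (𝓞 K) → ℂ, ψ' ⊤ = 1 ∧ (∀ I J, ψ' (I * J) = ψ' I * ψ' J) ∧ ψ' ⊥ = 0 ∧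
      (∀ I, I ≠ ⊥ → I ⊔ f = ⊤ → ‖ψ' I‖ = 1) ∧ (∀ I, I ⊔ f ≠ ⊤ → ψ' I = 0) ∧
      (∀ a : 𝓞 K, a ≠ 0 → a - 1 ∈ f → ψ' (Ideal.span {a}) = sg K S a) ∧
      (∀ I, I ≠ ⊥ → I ⊔ m = ⊤ → ψ' I = ψ I) ∧
      ∀ I, ψ' I = 0 ∨ ∃ J, J ≠ ⊥ ∧ J ⊔ m = ⊤ ∧ ψ' I = (starRingEnd ℂ) (ψ J)

/-- (PRM) every ray class character comes from a primitive one. -/
def T_PRM : Prop :=
  ∀ (K : Type) [Field K] [NumberField K] (m : Ideal (𝓞 K)) (ψ : Ideal (𝓞 K) → ℂ), PC m ψ →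
    ∃ χ : RCC K, m ≤ χ.f ∧ (∀ I, I ≠ ⊥ → I ⊔ m = ⊤ → χ.ψ I = ψ I) ∧
      ∀ I, χ.ψ I = 0 ∨ ∃ J, J ≠ ⊥ ∧ J ⊔ m = ⊤ ∧ χ.ψ I = (starRingEnd ℂ) (ψ J)

/-- (TWT) twists by Dirichlet characters. -/
def T_TWT : Prop :=
  ∀ (K : Type) [Field K] [NumberField K] (χ : RCC K) (q : ℕ) [NeZero q]
    (θ : DirichletCharacter ℂ q), ∃ χ' : RCC K, ∀ P : Ideal (𝓞 K), P.IsPrime → P ≠ ⊥ →
      P ⊔ Ideal.span {(q : 𝓞 K)} = ⊤ → χ'.ψ P = χ.ψ P * θ ((Ideal.absNorm P : ℕ) : ZMod q)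

/-- (SPT) power sums of a twist. -/
def T_SPT : Prop :=
  ∀ (K : Type) [Field K] [NumberField K] (χ χ' : RCC K) (q : ℕ) [NeZero q]
    (θ : DirichletCharacter ℂ q), (∀ P : Ideal (𝓞 K), P.IsPrime → P ≠ ⊥ →
      P ⊔ Ideal.span {(q : 𝓞 K)} = ⊤ → χ'.ψ P = χ.ψ P * θ ((Ideal.absNorm P : ℕ) : ZMod q)) →
    ∀ p k : ℕ, p.Prime → p.Coprime q → 1 ≤ k → spc χ' p k = θ (p : ZMod q) ^ k * spc χ p k

/-- (SPA) power sums of a power; the trivial character. -/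
def T_SPA : Prop :=
  ∀ (K : Type) [Field K] [NumberField K],
    (∀ (χ χ' : RCC K) (a p k : ℕ), p.Prime → 1 ≤ k → 1 ≤ a →
      a.Coprime (Module.finrank ℚ K).factorial → (∀ I, χ'.ψ I = χ.ψ I ^ a) →
      spc χ' p k = spc χ p (a * k)) ∧
    ∀ p k : ℕ, p.Prime → 1 ≤ k → spc (triv K) p k = (spf K p k : ℂ)

/-- (SPE) the power sums as sums of powers of roots of unity. -/
def T_SPE : Prop :=
  ∀ (K : Type) [Field K] [NumberField K] (χ : RCC K) (m : ℕ), 1 ≤ m →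
    (∀ I, χ.ψ I = 0 ∨ χ.ψ I ^ m = 1) → ∀ p : ℕ, p.Prime →
    ∃ β : Fin (Module.finrank ℚ K) → ℂ,
      (∀ l, β l = 0 ∨ β l ^ (m * (Module.finrank ℚ K).factorial) = 1) ∧
      ∀ k : ℕ, 1 ≤ k → spc χ p k = ∑ l, β l ^ k

/-! ### Finite Euler products with a functional equation -/

/-- the number of `κ_j` equal to `x` -/
noncomputable def cκ (L : DL.LF) (x : ℝ) : ℤ := (Nat.card {j : Fin L.n // L.κ j = x} : ℤ)

/-- a family of `L`-functions without denominators, whose Euler factors at the primes have zeros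
on the imaginary axis only -/
def Gd {ι : Type} (L : ι → DL.LF) : Prop :=
  (∀ i, (L i).den = fun _ => 1) ∧
    ∀ i j (p : ℕ), p.Prime → (L i).h j p = 0 ∨ ‖(L i).h j p‖ = 1

/-- the power sums of the Euler factor at `p` of a quotient -/
noncomputable def ps {ι : Type} [Fintype ι] (L : ι → DL.LF) (c : ι → ℤ) (p k : ℕ) : ℂ :=
  ∑ i, (c i : ℂ) * ∑ j, (L i).h j p ^ k

/-- (FE0) the finite Euler product. -/
def T_FE0 : Prop :=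
  ∀ (ι : Type) [Fintype ι] (L : ι → DL.LF) (c : ι → ℤ) (B : Finset ℕ), Gd L →
    (∀ p ∈ B, p.Prime) → (∀ p k : ℕ, p.Prime → p ∉ B → 1 ≤ k → ps L c p k = 0) →
    ∀ s : ℂ, 1 < s.re → 0 < s.im →
      ∏ i, (L i).num s ^ (c i) =
        ∏ p ∈ B, ∏ i, (∏ j, (1 - (L i).h j p * (p : ℂ) ^ (-s))) ^ (-(c i))

open scoped Classical in
/-- the order at `s` of the finite Euler product -/
noncomputable def oe {ι : Type} [Fintype ι] (L : ι → DL.LF) (c : ι → ℤ) (B : Finset ℕ) (s : ℂ) :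
    ℤ :=
  ∑ p ∈ B, ∑ i, c i * ∑ j, if (L i).h j p * (p : ℂ) ^ (-s) = 1 then (1 : ℤ) else 0

/-- (FE1) the symmetry of the orders. -/
def T_FE1 : Prop :=
  ∀ (ι : Type) [Fintype ι] (L : ι → DL.LF) (c : ι → ℤ) (B : Finset ℕ), Gd L →
    (∀ p ∈ B, p.Prime) →
    (∀ s : ℂ, 1 < s.re → 0 < s.im → ∏ i, (L i).num s ^ (c i) =
        ∏ p ∈ B, ∏ i, (∏ j, (1 - (L i).h j p * (p : ℂ) ^ (-s))) ^ (-(c i))) →
    ∀ s : ℂ, 0 < s.im → oe L c B s = oe L c B (1 - (starRingEnd ℂ) s)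

/-- (FE3) the Euler factors are trivial. -/
def T_FE3 : Prop :=
  ∀ (ι : Type) [Fintype ι] (L : ι → DL.LF) (c : ι → ℤ) (B : Finset ℕ), Gd L →
    (∀ p ∈ B, p.Prime) → (∀ s : ℂ, 0 < s.im → oe L c B s = oe L c B (1 - (starRingEnd ℂ) s)) →
    ∀ p ∈ B, ∀ k : ℕ, 1 ≤ k → ps L c p k = 0

/-- (FE2) the Gamma factors. -/
def T_FE2 : Prop :=
  ∀ (ι : Type) [Fintype ι] (L : ι → DL.LF) (c : ι → ℤ), Gd L →
    (∀ s : ℂ, 1 < s.re → 0 < s.im → ∏ i, (L i).num s ^ (c i) = 1) →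
    ∑ i, c i * cκ (L i) 0 = 0 ∧ ∑ i, c i * cκ (L i) 1 = 0

/-- (FEP) a quotient of `L`-functions with almost all Euler factors trivial is trivial. -/
def T_FEP : Prop :=
  ∀ (ι : Type) [Fintype ι] (L : ι → DL.LF) (c : ι → ℤ) (B : Finset ℕ), Gd L →
    (∀ p k : ℕ, p.Prime → p ∉ B → 1 ≤ k → ps L c p k = 0) →
    (∀ p k : ℕ, p.Prime → 1 ≤ k → ps L c p k = 0) ∧
      ∑ i, c i * cκ (L i) 0 = 0 ∧ ∑ i, c i * cκ (L i) 1 = 0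

/-! ### The comparison -/

/-- `R` is compared with ray class characters at the primes outside `B` -/
structure Cmp (R : DL.ArtinRep) where
  N : ℕ
  H : Fin N → Subgroup (R.K ≃ₐ[ℚ] R.K)
  χ : ∀ i, RCC (FF R (H i))
  n : Fin N → ℤ
  B : Finset ℕ
  m : ℕ
  m_pos : 1 ≤ m
  val : ∀ i I, (χ i).ψ I = 0 ∨ (χ i).ψ I ^ m = 1
  good : ∀ (p : Nat.Primes), (p : ℕ) ∉ B → ∀ k : ℕ, 1 ≤ k →
    LinearMap.trace ℂ R.V (R.fr p ^ k) = ∑ i, (n i : ℂ) * spc (χ i) p k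

/-- (CM0) the data from Brauer induction and reciprocity. -/
def T_CM0 : Prop := ∀ R : DL.ArtinRep, Nonempty (Cmp R)

/-- (CM1) the twisted comparison. -/
def T_CM1 : Prop :=
  ∀ (R : DL.ArtinRep) (D : Cmp R), ∃ M : ℕ, 2 ≤ M ∧ Nat.card (R.K ≃ₐ[ℚ] R.K) ∣ M ∧
    (∀ i, D.m * (Module.finrank ℚ (FF R (D.H i))).factorial ∣ M) ∧
    ∀ (p : Nat.Primes) (ζ : ℂ), ζ ^ M = 1 → ∃ M' : ℕ, 2 ≤ M' ∧ M ∣ M' ∧ ∀ k : ℕ, 1 ≤ k →
      ∑ a ∈ un M', ζ ^ (a * k) * (∑ i, (D.n i : ℂ) * spc (D.χ i) p (a * k) -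
        LinearMap.trace ℂ R.V (R.fr p ^ (a * k))) = 0

/-- (CM2) the Gamma factors. -/
def T_CM2 : Prop :=
  ∀ (R : DL.ArtinRep) (D : Cmp R), ∃ a₀ b₀ : ℕ, a₀ + b₀ = R.dim ∧
    (a₀ : ℤ) = ∑ i, D.n i * ((nrRealPlaces (FF R (D.H i)) - (D.χ i).S.card +
      nrComplexPlaces (FF R (D.H i)) : ℕ) : ℤ) ∧
    (b₀ : ℤ) = ∑ i, D.n i * (((D.χ i).S.card + nrComplexPlaces (FF R (D.H i)) : ℕ) : ℤ)

/-- (CM3) all Euler factors agree. -/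
def T_CM3 : Prop :=
  ∀ (R : DL.ArtinRep) (D : Cmp R) (p : Nat.Primes) (k : ℕ), 1 ≤ k →
    LinearMap.trace ℂ R.V (R.fr p ^ k) = ∑ i, (D.n i : ℂ) * spc (D.χ i) p k

end Pool.Agent.H28.RC
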