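import Pool.Agent.H25.HK.Final
import Pool.Agent.H12.RC.GS
import Pool.Agent.H12.RC.H1
import Pool.Agent.H16.RC.CW
import Pool.Agent.H19.RC.CM
import Pool.Agent.H19.RC.ME
import Pool.Agent.H19.RC.TH
import Pool.Agent.H24.RC.CM1
import Pool.Agent.H24.RC.CM2
import Pool.Agent.H24.RC.DC
import Pool.Agent.H24.RC.GI
import Pool.Agent.H33.RC.EIG
import Pool.Agent.H33.RC.F1
import Pool.Agent.H35.RC.ROU
import Pool.Agent.H4.RC.DIR
import Pool.Agent.H4.RC.RAM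
import Pool.Agent.H42.RC.GA
import Pool.Agent.H48.RC.CN
import Pool.Agent.H48.RC.RX
import Pool.Agent.H50.RC.CV
import Pool.Agent.H51.RC.CM0
import Pool.Agent.H53.RC.FE1
import Pool.Agent.H53.RC.FE2
import Pool.Agent.H53.RC.FEP
import Pool.Agent.H56.RC.CM3
import Pool.Agent.H56.RC.SPE
import Pool.Agent.H67.RC.FNR
import Pool.Agent.H67.RC.SGN
import Pool.Agent.H68.RC.GM
import Pool.Agent.H68.RC.LB
import Pool.Agent.H68.RC.PO
import Pool.Agent.H68.RC.POW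
import Pool.Agent.H68.RC.SPA
import Pool.Agent.H68.RC.TRX
import Pool.Agent.H69.RC.CI
import Pool.Agent.H69.RC.FIN
import Pool.Agent.H69.RC.SPT
import Pool.Agent.H71.RC.UI
import Pool.Agent.H74.RC.AIC
import Pool.Agent.H74.RC.PRS
import Pool.Agent.H74.RC.SEP
import Pool.Agent.H79.RC.FE3
import Pool.Agent.H81.RC.EP
import Pool.Agent.H81.RC.HE
import Pool.Agent.H85.RC.TWK
import Pool.Agent.H86.RC.CS
import Pool.Agent.H86.RC.CT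
import Pool.Agent.H86.RC.FE0
import Pool.Agent.H86.RC.GW
import Pool.Agent.H86.RC.LK
import Pool.Agent.H92.RC.CP
import Pool.Agent.H92.RC.ID
import Pool.Agent.H92.RC.TWT
import Pool.Agent.H99.RC.PRE

/-!
# All Artin L-functions over the rationals: assembly of parts 1 and 2
-/

set_option autoImplicit false

namespace Pool.Agent.H28.RC

open Pool.Agent.H25.HK

theorem c_ID : T_ID := Pool.Agent.H92.RC.pf_ID

theorem c_CM : T_CM := Pool.Agent.H19.RC.pf_CM c_ID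

theorem c_CP : T_CP := Pool.Agent.H92.RC.pf_CP c_ID c_CM

theorem c_RX : T_RX := Pool.Agent.H48.RC.pf_RX

theorem c_PO : T_POc :=
  Pool.Agent.H68.RC.pf_PO Pool.Agent.H16.HK.ps
    (Pool.Agent.H42.RC.pf_GA Pool.Agent.H33.RC.pf_F1) Pool.Agent.H12.RC.pf_GS

theorem c_SM : T_SMc := pf_SM T_TH_proved

theorem c_TH : T_THc :=
  Pool.Agent.H19.RC.pf_TH c_PO (Pool.Agent.H68.RC.pf_GM Pool.Agent.H3.HK.gm)
    (Pool.Agent.H68.RC.pf_LB Pool.Agent.H3.HK.lb) c_SM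

theorem c_CI : T_CI := Pool.Agent.H69.RC.pf_CI c_ID c_CM c_CP T_DU_proved c_RX

theorem c_CV : T_CV := Pool.Agent.H50.RC.pf_CV c_ID c_CM c_CP T_DU_proved

theorem c_CW : T_CW := Pool.Agent.H16.RC.pf_CW c_ID c_CM c_CP c_CV c_CI c_RX T_DU_proved

theorem c_CN : T_CN := Pool.Agent.H48.RC.pf_CN c_ID c_CM c_CP c_RX T_DU_proved c_CW

theorem c_UI : T_UIc := Pool.Agent.H71.RC.pf_UI T_YC_proved T_UI_proved c_CM

theorem c_CT : T_CTc := Pool.Agent.H86.RC.pf_CT T_TH_proved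

theorem c_DC : T_DCc := Pool.Agent.H24.RC.pf_DC T_TH_proved T_YC_proved Pool.Agent.H66.HK.fd

theorem c_GI : T_GIc :=
  Pool.Agent.H24.RC.pf_GI Pool.Agent.H41.HK.ja Pool.Agent.H41.HK.g1 T_YC_proved

theorem c_EP : T_EPc := Pool.Agent.H81.RC.ep

theorem c_ME : T_MEc :=
  Pool.Agent.H19.RC.pf_ME Pool.Agent.H41.HK.bi Pool.Agent.H41.HK.un c_GI Pool.Agent.H66.HK.fd
    c_SM c_EP c_CT T_YC_proved T_UI_proved c_UI c_CM c_ID

theorem c_CS : T_CSc := Pool.Agent.H86.RC.pf_CS T_DU_proved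

theorem c_GW : T_GWc := Pool.Agent.H86.RC.pf_GW c_EP

theorem c_HE (hWP : T_WPc) : T_HEc :=
  Pool.Agent.H81.RC.pf_HE hWP c_ME c_CS c_EP T_DU_proved c_CW c_CN Pool.Agent.H11.HK.bd

theorem c_LK (hWP : T_WPc) : T_LKc := Pool.Agent.H86.RC.pf_LK (c_HE hWP) c_GW c_EP

theorem c_H1 (hWP : T_WPc) : T_H1 :=
  Pool.Agent.H12.RC.pf_H1 hWP c_ME c_CS c_EP T_DU_proved c_CW c_CM c_CP c_ID

theorem c_SGN : T_SGN := Pool.Agent.H67.RC.pf_SGN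

theorem c_PRS : T_PRS := Pool.Agent.H74.RC.pf_PRS c_SGN

theorem c_PRE : T_PRE := Pool.Agent.H99.RC.pf_PRE c_SGN

theorem c_PRM : T_PRM := Pool.Agent.H99.RC.pf_PRM c_PRS c_PRE

theorem c_TWT : T_TWT := Pool.Agent.H92.RC.pf_TWT c_SGN c_PRM

theorem c_EIG : T_EIG := Pool.Agent.H33.RC.pf_EIG Pool.Agent.H11.HK.pw

theorem c_TRX : T_TRX :=
  Pool.Agent.H68.RC.pf_TRX Pool.Agent.H11.HK.tr Pool.Agent.H35.RC.pf_ROU c_EIG

theorem c_FEP : T_FEP :=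
  Pool.Agent.H53.RC.pf_FEP (Pool.Agent.H86.RC.pf_FE0 Pool.Agent.H11.HK.lp)
    Pool.Agent.H53.RC.pf_FE1 Pool.Agent.H79.RC.pf_FE3 Pool.Agent.H53.RC.pf_FE2

theorem c_CM1 (hWP : T_WPc) : T_CM1 :=
  Pool.Agent.H24.RC.pf_CM1 Pool.Agent.H4.RC.pf_DIR Pool.Agent.H85.RC.pf_TWK c_TRX
    Pool.Agent.H4.RC.pf_RAM c_EIG Pool.Agent.H74.RC.pf_AIC Pool.Agent.H29.HK.pe
    Pool.Agent.H68.RC.pf_POW c_TWT Pool.Agent.H69.RC.pf_SPT Pool.Agent.H68.RC.pf_SPA (c_LK hWP)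
    c_FEP Pool.Agent.H67.RC.pf_FNR

theorem c_CM2 (hWP : T_WPc) : T_CM2 :=
  Pool.Agent.H24.RC.pf_CM2 c_TRX Pool.Agent.H4.RC.pf_RAM c_EIG Pool.Agent.H74.RC.pf_AIC
    Pool.Agent.H29.HK.pe Pool.Agent.H68.RC.pf_POW Pool.Agent.H68.RC.pf_SPA (c_LK hWP)
    c_FEP Pool.Agent.H67.RC.pf_FNR Pool.Agent.H29.HK.ac

theorem c_CM3 (hWP : T_WPc) : T_CM3 :=
  Pool.Agent.H56.RC.pf_CM3 Pool.Agent.H74.RC.pf_SEP (c_CM1 hWP) Pool.Agent.H56.RC.pf_SPE c_EIG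
    c_TRX

/-- all Artin `L`-functions over the rationals, from Brauer induction and reciprocity -/
theorem c_ALL (hWP : T_WPc) (hB : T_BRA) (hR : T_REC) : T_ALL :=
  Pool.Agent.H69.RC.pf_FIN
    (Pool.Agent.H51.RC.pf_CM0 hB hR Pool.Agent.H67.RC.pf_FNR Pool.Agent.H11.HK.tr)
    (c_CM2 hWP) (c_CM3 hWP) (c_LK hWP) Pool.Agent.H11.HK.lp Pool.Agent.H11.HK.pw
    Pool.Agent.H48.DL.al Pool.Agent.H48.DL.ah

end Pool.Agent.H28.RC
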