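import Pool.Agent.H28.RC.Targets2

/-!
# Artin reciprocity in ideal form: targets, part 3
-/

set_option autoImplicit false

open NumberField Filter Topology

namespace Pool.Agent.H28.RC

section Defs

variable {F Ω : Type} [Field F] [NumberField F] [Field Ω] [NumberField Ω] [Algebra F Ω]

/-- the nonzero prime ideals -/
abbrev PrI (F : Type) [Field F] [NumberField F] : Type := {P : Ideal (𝓞 F) // P.IsPrime ∧ P ≠ ⊥}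

/-- the sum of `w(P) NP^(-s)` over the nonzero primes -/
noncomputable def PR (w : Ideal (𝓞 F) → ℝ) (s : ℝ) : ℝ :=
  ∑' P : PrI F, w P.1 * (Ideal.absNorm P.1 : ℝ) ^ (-s)

/-- `g` is a Frobenius element at the prime `P` of `F` -/
def Fro (P : Ideal (𝓞 F)) (g : Ω ≃ₐ[F] Ω) : Prop :=
  ∃ Q : Ideal (𝓞 Ω), Q.IsPrime ∧ Q.under (𝓞 F) = P ∧
    ∀ x : 𝓞 Ω, g • x - x ^ (Ideal.absNorm P) ∈ Q

variable (Ω) in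
/-- the primes not dividing `m` are unramified in `Ω` -/
def UR (m : Ideal (𝓞 F)) : Prop :=
  ∀ Q : Ideal (𝓞 Ω), Q.IsPrime → Q ≠ ⊥ → Q.under (𝓞 F) ⊔ m = ⊤ →
    ∀ g : Ω ≃ₐ[F] Ω, (∀ x : 𝓞 Ω, g • x - x ∈ Q) → g = 1

/-- `ψ` is a ray class character modulo `m`, trivial on the norms from the fixed field of `N` -/
structure Psi (m : Ideal (𝓞 F)) (N : Subgroup (Ω ≃ₐ[F] Ω)) (ψ : Ideal (𝓞 F) → ℂ) : Prop where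
  pc : PC m ψ
  tr : ∀ P : Ideal (𝓞 F), P ⊔ m = ⊤ → ∀ g : Ω ≃ₐ[F] Ω, Fro P g → ∀ f : ℕ, g ^ f ∈ N →
    ψ P ^ f = 1

/-- the characters modulo `m` trivial on the norms factor through the Frobenius elements -/
def Fac (m : Ideal (𝓞 F)) (N : Subgroup (Ω ≃ₐ[F] Ω)) : Prop :=
  ∀ ψ : Ideal (𝓞 F) → ℂ, Psi m N ψ → ∃ μ : (Ω ≃ₐ[F] Ω) →* ℂˣ, (∀ g ∈ N, μ g = 1) ∧
    ∀ P : Ideal (𝓞 F), P ⊔ m = ⊤ → ∀ g : Ω ≃ₐ[F] Ω, Fro P g → ψ P = ((μ g : ℂˣ) : ℂ)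

/-- `μ` is the character of `H` which corresponds to `ψ` over the fixed field of `H` -/
def Loc (m : Ideal (𝓞 F)) (ψ : Ideal (𝓞 F) → ℂ) (H : Subgroup (Ω ≃ₐ[F] Ω)) (μ : H →* ℂˣ) : Prop :=
  ∀ P : Ideal (𝓞 F), P ⊔ m = ⊤ → ∀ g : Ω ≃ₐ[F] Ω, Fro P g → ∀ (d : ℕ) (h : g ^ d ∈ H),
    ψ P ^ d = ((μ ⟨g ^ d, h⟩ : ℂˣ) : ℂ)

open scoped Classical in
/-- the restriction of a character to the ideals prime to `m` -/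
noncomputable def rst (m : Ideal (𝓞 F)) (ψ : Ideal (𝓞 F) → ℂ) (I : Ideal (𝓞 F)) : ℂ :=
  if I ⊔ m = ⊤ then ψ I else 0

end Defs

/-! ### Ray class characters -/

/-- (PCO) operations. -/
def T_PCO : Prop :=
  ∀ (F : Type) [Field F] [NumberField F] (m : Ideal (𝓞 F)) (ψ : Ideal (𝓞 F) → ℂ), PC m ψ →
    (∀ ψ' : Ideal (𝓞 F) → ℂ, PC m ψ' → PC m (fun I => ψ I * (starRingEnd ℂ) (ψ' I))) ∧
    ∀ m' : Ideal (𝓞 F), m' ≤ m → m' ≠ ⊥ → PC m' (rst m' ψ)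

/-- (PSU) convergence. -/
def T_PSU : Prop :=
  ∀ (F : Type) [Field F] [NumberField F] (w : Ideal (𝓞 F) → ℝ) (B : ℝ), (∀ P, |w P| ≤ B) →
    ∀ s : ℝ, 1 < s → Summable fun P : PrI F => w P.1 * (Ideal.absNorm P.1 : ℝ) ^ (-s)

/-- (PRC) only the primes of degree one matter, up to a finite number. -/
def T_PRC : Prop :=
  ∀ (F : Type) [Field F] [NumberField F] (w w' : Ideal (𝓞 F) → ℝ) (B : ℝ)
    (A : Set (Ideal (𝓞 F))), (∀ P, |w P| ≤ B) → (∀ P, |w' P| ≤ B) → A.Finite →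
    (∀ P : Ideal (𝓞 F), P.IsPrime → P ≠ ⊥ → (Ideal.absNorm P).Prime → P ∉ A → w P = w' P) →
    ∃ C : ℝ, ∀ s : ℝ, 1 < s → |PR w s - PR w' s| ≤ C

/-- (PRT) transfer between two fields. -/
def T_PRT : Prop :=
  ∀ (F L : Type) [Field F] [NumberField F] [Field L] [NumberField L] [Algebra F L]
    (w : Ideal (𝓞 F) → ℝ) (w' : Ideal (𝓞 L) → ℝ) (B : ℝ), (∀ P, |w' P| ≤ B) →
    (∀ 𝔓 : Ideal (𝓞 L), 𝔓.IsPrime → 𝔓 ≠ ⊥ →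
      Ideal.absNorm 𝔓 ≠ Ideal.absNorm (𝔓.under (𝓞 F)) → w' 𝔓 = 0) →
    (∀ P : Ideal (𝓞 F), P.IsPrime → P ≠ ⊥ →
      ∑ᶠ 𝔓 ∈ Ideal.primesOver P (𝓞 L), w' 𝔓 = w P) →
    ∀ s : ℝ, 1 < s → PR w' s = PR w s

/-- (LGE) the logarithm of an `L`-function. -/
def T_LGE : Prop :=
  ∀ (F : Type) [Field F] [NumberField F] (χ : RCC F), ∃ C : ℝ, ∀ s : ℝ, 1 < s →
    Lc χ s ≠ 0 ∧ |PR (fun P => (χ.ψ P).re) s - Real.log ‖Lc χ s‖| ≤ C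

/-- (LGT) the pole of the zeta function. -/
def T_LGT : Prop :=
  ∀ (F : Type) [Field F] [NumberField F], ∃ C : ℝ, ∀ᶠ s : ℝ in 𝓝[>] 1,
    |PR (F := F) (fun _ => 1) s - Real.log (1 / (s - 1))| ≤ C

/-- (LGN) nontrivial characters. -/
def T_LGN : Prop :=
  ∀ (F : Type) [Field F] [NumberField F] (m : Ideal (𝓞 F)) (ψ : Ideal (𝓞 F) → ℂ), PC m ψ →
    (∃ I : Ideal (𝓞 F), I ≠ ⊥ ∧ I ⊔ m = ⊤ ∧ ψ I ≠ 1) →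
    ∃ C : ℝ, ∀ᶠ s : ℝ in 𝓝[>] 1, PR (fun P => (ψ P).re) s ≤ C

/-- (EQP) characters which agree at almost all primes. -/
def T_EQP : Prop :=
  ∀ (F : Type) [Field F] [NumberField F] (m b : Ideal (𝓞 F)) (ψ ψ' : Ideal (𝓞 F) → ℂ),
    PC m ψ → PC m ψ' → b ≠ ⊥ → (∀ P : Ideal (𝓞 F), P.IsPrime → P ≠ ⊥ → P ⊔ b = ⊤ → ψ P = ψ' P) →
    ψ = ψ'

/-! ### Frobenius elements -/

/-- (FRE) existence and conjugacy of Frobenius elements. -/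
def T_FRE : Prop :=
  ∀ (F Ω : Type) [Field F] [NumberField F] [Field Ω] [NumberField Ω] [Algebra F Ω]
    [IsGalois F Ω],
    (∀ P : Ideal (𝓞 F), P.IsPrime → P ≠ ⊥ → ∃ g : Ω ≃ₐ[F] Ω, Fro P g) ∧
    (∀ (P : Ideal (𝓞 F)) (g : Ω ≃ₐ[F] Ω), Fro P g → P.IsPrime ∧ P ≠ ⊥) ∧
    (∀ (P : Ideal (𝓞 F)) (g x : Ω ≃ₐ[F] Ω), Fro P g → Fro P (x⁻¹ * g * x)) ∧
    ∀ (m P : Ideal (𝓞 F)) (g g' : Ω ≃ₐ[F] Ω), UR Ω m → P ⊔ m = ⊤ → Fro P g → Fro P g' →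
      ∃ x, g' = x⁻¹ * g * x

/-- (URT) primes in a tower. -/
def T_URT : Prop :=
  ∀ (F L Ω : Type) [Field F] [NumberField F] [Field L] [NumberField L] [Field Ω]
    [NumberField Ω] [Algebra F L] [Algebra L Ω] [Algebra F Ω] [IsScalarTower F L Ω]
    (m : Ideal (𝓞 F)),
    (∀ 𝔓 : Ideal (𝓞 L), 𝔓.IsPrime → 𝔓 ≠ ⊥ → (𝔓.under (𝓞 F)).IsPrime ∧ 𝔓.under (𝓞 F) ≠ ⊥ ∧
      (𝔓 ⊔ m.map (algebraMap (𝓞 F) (𝓞 L)) = ⊤ ↔ 𝔓.under (𝓞 F) ⊔ m = ⊤)) ∧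
    (UR Ω m → UR Ω (m.map (algebraMap (𝓞 F) (𝓞 L))))

/-- (FR1) Frobenius elements in a tower, from above. -/
def T_FR1 : Prop :=
  ∀ (F L Ω : Type) [Field F] [NumberField F] [Field L] [NumberField L] [Field Ω]
    [NumberField Ω] [Algebra F L] [Algebra L Ω] [Algebra F Ω] [IsScalarTower F L Ω]
    [IsGalois F Ω] (m : Ideal (𝓞 F)), UR Ω m → ∀ (𝔓 : Ideal (𝓞 L)) (h : Ω ≃ₐ[L] Ω),
    Fro 𝔓 h → 𝔓.under (𝓞 F) ⊔ m = ⊤ → ∃ (g : Ω ≃ₐ[F] Ω) (f : ℕ), 1 ≤ f ∧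
      Fro (𝔓.under (𝓞 F)) g ∧ Ideal.relNorm (𝓞 F) 𝔓 = (𝔓.under (𝓞 F)) ^ f ∧
      Ideal.absNorm 𝔓 = Ideal.absNorm (𝔓.under (𝓞 F)) ^ f ∧ h.restrictScalars F = g ^ f

/-- (FR2) Frobenius elements in a tower, from below. -/
def T_FR2 : Prop :=
  ∀ (F L Ω : Type) [Field F] [NumberField F] [Field L] [NumberField L] [Field Ω]
    [NumberField Ω] [Algebra F L] [Algebra L Ω] [Algebra F Ω] [IsScalarTower F L Ω]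
    [IsGalois F Ω] (m : Ideal (𝓞 F)), UR Ω m → ∀ (P : Ideal (𝓞 F)) (g : Ω ≃ₐ[F] Ω),
    Fro P g → P ⊔ m = ⊤ → ∀ (d : ℕ) (h' : Ω ≃ₐ[L] Ω), h'.restrictScalars F = g ^ d →
    ∃ (𝔓 : Ideal (𝓞 L)) (f : ℕ) (h : Ω ≃ₐ[L] Ω), 𝔓.IsPrime ∧ 𝔓.under (𝓞 F) = P ∧ 1 ≤ f ∧
      f ∣ d ∧ Ideal.relNorm (𝓞 F) 𝔓 = P ^ f ∧ Ideal.absNorm 𝔓 = Ideal.absNorm P ^ f ∧
      Fro 𝔓 h ∧ h.restrictScalars F = g ^ f

/-- (FR4) the primes above an unramified prime in the fixed field of a normal subgroup. -/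
def T_FR4 : Prop :=
  ∀ (F Ω : Type) [Field F] [NumberField F] [Field Ω] [NumberField Ω] [Algebra F Ω]
    [IsGalois F Ω] (m : Ideal (𝓞 F)) (N : Subgroup (Ω ≃ₐ[F] Ω)), N.Normal → UR Ω m →
    ∀ P : Ideal (𝓞 F), P.IsPrime → P ≠ ⊥ → P ⊔ m = ⊤ →
      ((∃ g ∈ N, Fro P g) → (∀ 𝔓 ∈ Ideal.primesOver P (𝓞 (IntermediateField.fixedField N)),
        Ideal.absNorm 𝔓 = Ideal.absNorm P) ∧
        (Ideal.primesOver P (𝓞 (IntermediateField.fixedField N))).ncard = N.index) ∧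
      ((¬ ∃ g ∈ N, Fro P g) → ∀ 𝔓 ∈ Ideal.primesOver P (𝓞 (IntermediateField.fixedField N)),
        Ideal.absNorm 𝔓 ≠ Ideal.absNorm P)

open scoped Classical in
/-- (SPL) the density of the primes with Frobenius element in a normal subgroup. -/
def T_SPL : Prop :=
  ∀ (F Ω : Type) [Field F] [NumberField F] [Field Ω] [NumberField Ω] [Algebra F Ω]
    [IsGalois F Ω] (m : Ideal (𝓞 F)) (N : Subgroup (Ω ≃ₐ[F] Ω)), N.Normal → m ≠ ⊥ → UR Ω m →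
    ∃ C : ℝ, ∀ᶠ s : ℝ in 𝓝[>] 1,
      |(N.index : ℝ) * PR (F := F) (fun P => if P ⊔ m = ⊤ ∧ ∃ g ∈ N, Fro P g then 1 else 0) s -
        Real.log (1 / (s - 1))| ≤ C

/-- (SUR) the Frobenius elements generate. -/
def T_SUR : Prop :=
  ∀ (F Ω : Type) [Field F] [NumberField F] [Field Ω] [NumberField Ω] [Algebra F Ω]
    [IsGalois F Ω] (m : Ideal (𝓞 F)) (μ : (Ω ≃ₐ[F] Ω) →* ℂˣ), m ≠ ⊥ → UR Ω m →
    (∀ P : Ideal (𝓞 F), P ⊔ m = ⊤ → ∀ g : Ω ≃ₐ[F] Ω, Fro P g → μ g = 1) → μ = 1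

/-- (SEC) the second inequality. -/
def T_SEC : Prop :=
  ∀ (F Ω : Type) [Field F] [NumberField F] [Field Ω] [NumberField Ω] [Algebra F Ω]
    [IsGalois F Ω] (m : Ideal (𝓞 F)) (N : Subgroup (Ω ≃ₐ[F] Ω)), N.Normal → UR Ω m →
    ∀ T : Finset (Ideal (𝓞 F) → ℂ), (∀ ψ ∈ T, Psi m N ψ) → T.card ≤ N.index

/-! ### Norms of ray class characters -/

/-- (LFA) norms of elements congruent to one. -/
def T_LFA : Prop :=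
  ∀ (F L : Type) [Field F] [NumberField F] [Field L] [NumberField L] [Algebra F L]
    (m : Ideal (𝓞 F)) (a : 𝓞 L), a - 1 ∈ m.map (algebraMap (𝓞 F) (𝓞 L)) → a ≠ 0 →
    (∀ v : RP L, 0 < re v (a : L)) → ∃ b : 𝓞 F, b ≠ 0 ∧ b - 1 ∈ m ∧
      (∀ v : RP F, 0 < re v (b : F)) ∧ Ideal.relNorm (𝓞 F) (Ideal.span {a}) = Ideal.span {b}

/-- (LFT) the norm of a ray class character. -/
def T_LFT : Prop :=
  ∀ (F L : Type) [Field F] [NumberField F] [Field L] [NumberField L] [Algebra F L]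
    (m : Ideal (𝓞 F)) (ψ : Ideal (𝓞 F) → ℂ), PC m ψ →
    PC (m.map (algebraMap (𝓞 F) (𝓞 L))) (fun J => ψ (Ideal.relNorm (𝓞 F) J))

open scoped Classical in
/-- (CCH) characters of cyclotomic type. -/
def T_CCH : Prop :=
  ∀ (F : Type) [Field F] [NumberField F] (m : Ideal (𝓞 F)) (q : ℕ) [NeZero q]
    (θ : DirichletCharacter ℂ q), m ≠ ⊥ → m ≤ Ideal.span {(q : 𝓞 F)} →
    PC m (fun I => if I ≠ ⊥ ∧ I ⊔ m = ⊤ then θ ((Ideal.absNorm I : ℕ) : ZMod q) else 0)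

/-- (CYC) reciprocity for subfields of cyclotomic extensions. -/
def T_CYC : Prop :=
  ∀ (F Ω : Type) [Field F] [NumberField F] [Field Ω] [NumberField Ω] [Algebra F Ω]
    [IsGalois F Ω] (m : Ideal (𝓞 F)) (N : Subgroup (Ω ≃ₐ[F] Ω)) (q : ℕ) [NeZero q] (ζ : Ω),
    IsPrimitiveRoot ζ q → m ≠ ⊥ → m ≤ Ideal.span {(q : 𝓞 F)} → UR Ω m → N.Normal →
    (∀ g : Ω ≃ₐ[F] Ω, g ζ = ζ → g ∈ N) → Fac m N

/-- (LOC) localisation at a subgroup with cyclotomic quotient. -/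
def T_LOC : Prop :=
  ∀ (F Ω : Type) [Field F] [NumberField F] [Field Ω] [NumberField Ω] [Algebra F Ω]
    [IsGalois F Ω] (m : Ideal (𝓞 F)) (N H : Subgroup (Ω ≃ₐ[F] Ω)) (q : ℕ) [NeZero q] (ζ : Ω)
    (ψ : Ideal (𝓞 F) → ℂ), IsPrimitiveRoot ζ q → m ≤ Ideal.span {(q : 𝓞 F)} → UR Ω m →
    N.Normal → (∀ h ∈ H, h ζ = ζ → h ∈ N) → Psi m N ψ →
    ∃ μ : H →* ℂˣ, (∀ h : H, (h : Ω ≃ₐ[F] Ω) ∈ N → μ h = 1) ∧ Loc m ψ H μ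

/-- (CPR) comparison of two localisations. -/
def T_CPR : Prop :=
  ∀ (F Ω : Type) [Field F] [NumberField F] [Field Ω] [NumberField Ω] [Algebra F Ω]
    [IsGalois F Ω] (m : Ideal (𝓞 F)) (ψ : Ideal (𝓞 F) → ℂ) (H H' : Subgroup (Ω ≃ₐ[F] Ω))
    (μ : H →* ℂˣ) (μ' : H' →* ℂˣ), m ≠ ⊥ → UR Ω m → Loc m ψ H μ → Loc m ψ H' μ' →
    ∀ (g : Ω ≃ₐ[F] Ω) (h : g ∈ H) (h' : g ∈ H'), μ ⟨g, h⟩ = μ' ⟨g, h'⟩

/-! ### Auxiliary cyclotomic fields -/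

/-- (NTA) a prime at which the order of `a` is a given prime power. -/
def T_NTA : Prop :=
  ∀ (a l r : ℕ), 2 ≤ a → l.Prime → 2 ≤ r → ∃ q : ℕ, q.Prime ∧ q.Coprime a ∧
    orderOf (a : ZMod q) = l ^ r

/-- (NTB) the auxiliary modulus. -/
def T_NTB : Prop :=
  ∀ (n a D : ℕ), 1 ≤ n → 2 ≤ a → 1 ≤ D → ∃ (q : ℕ) (_ : NeZero q) (α τ : (ZMod q)ˣ),
    q.Coprime D ∧ q.Coprime a ∧ (α : ZMod q) = (a : ZMod q) ∧ n ∣ orderOf α ∧ n ∣ orderOf τ ∧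
    ∀ i j : ℤ, α ^ i = τ ^ j → α ^ i = 1

/-- (GAL) adjoining the `q`-th roots of unity. -/
def T_GAL : Prop :=
  ∀ (F E : Type) [Field F] [NumberField F] [Field E] [NumberField E] [Algebra F E]
    [IsGalois F E] (q : ℕ) [NeZero q], q.Coprime (discr E).natAbs →
    ∃ (Ω : Type) (_ : Field Ω) (_ : NumberField Ω) (_ : Algebra F Ω) (_ : IsGalois F Ω) (ζ : Ω)
      (res : (Ω ≃ₐ[F] Ω) →* (E ≃ₐ[F] E)) (c : (Ω ≃ₐ[F] Ω) →* (ZMod q)ˣ),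
      IsPrimitiveRoot ζ q ∧ (∀ g : Ω ≃ₐ[F] Ω, g ζ = ζ → c g = 1) ∧
      (∀ (u : E ≃ₐ[F] E) (v : (ZMod q)ˣ), ∃ g, res g = u ∧ c g = v) ∧
      (∀ (P : Ideal (𝓞 F)) (g : Ω ≃ₐ[F] Ω), Fro P g → Fro P (res g)) ∧
      (∀ (P : Ideal (𝓞 F)) (g : Ω ≃ₐ[F] Ω), Fro P g → P ⊔ Ideal.span {(q : 𝓞 F)} = ⊤ →
        ((c g : (ZMod q)ˣ) : ZMod q) = ((Ideal.absNorm P : ℕ) : ZMod q)) ∧
      ∀ m : Ideal (𝓞 F), UR E m → UR Ω (m * Ideal.span {(q : 𝓞 F)})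

/-- (CRS) Artin's crossing. -/
def T_CRS : Prop :=
  ∀ (F E : Type) [Field F] [NumberField F] [Field E] [NumberField E] [Algebra F E]
    [IsGalois F E] (m : Ideal (𝓞 F)), IsCyclic (E ≃ₐ[F] E) → m ≠ ⊥ → UR E m →
    ∃ q : ℕ, 1 ≤ q ∧ ∀ ψ : Ideal (𝓞 F) → ℂ, Psi m (⊥ : Subgroup (E ≃ₐ[F] E)) ψ →
      ∃ μ : (E ≃ₐ[F] E) →* ℂˣ, ∀ P : Ideal (𝓞 F), P ⊔ m = ⊤ →
        P ⊔ Ideal.span {(q : 𝓞 F)} = ⊤ → ∀ g : E ≃ₐ[F] E, Fro P g → ψ P = ((μ g : ℂˣ) : ℂ)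

/-- (FIQ) the first inequality. -/
def T_FIQ : Prop :=
  ∀ (F E : Type) [Field F] [NumberField F] [Field E] [NumberField E] [Algebra F E]
    [IsGalois F E], IsCyclic (E ≃ₐ[F] E) → ∃ m : Ideal (𝓞 F), m ≠ ⊥ ∧ UR E m ∧
      ∃ T : Finset (Ideal (𝓞 F) → ℂ), T.card = Nat.card (E ≃ₐ[F] E) ∧
        ∀ ψ ∈ T, Psi m (⊥ : Subgroup (E ≃ₐ[F] E)) ψ

/-- (RC0) reciprocity for cyclic extensions. -/
def T_RC0 : Prop :=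
  ∀ (F E : Type) [Field F] [NumberField F] [Field E] [NumberField E] [Algebra F E]
    [IsGalois F E] (μ : (E ≃ₐ[F] E) →* ℂˣ), IsCyclic (E ≃ₐ[F] E) →
    ∃ (m : Ideal (𝓞 F)) (ψ : Ideal (𝓞 F) → ℂ), PC m ψ ∧
      (∀ I, ψ I = 0 ∨ ψ I ^ Nat.card (E ≃ₐ[F] E) = 1) ∧
      ∀ P : Ideal (𝓞 F), P ⊔ m = ⊤ → ∀ g : E ≃ₐ[F] E, Fro P g → ψ P = ((μ g : ℂˣ) : ℂ)

/-- (RC1) reciprocity for one-dimensional characters. -/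
def T_RC1 : Prop :=
  ∀ (F Ω : Type) [Field F] [NumberField F] [Field Ω] [NumberField Ω] [Algebra F Ω]
    [IsGalois F Ω] (μ : (Ω ≃ₐ[F] Ω) →* ℂˣ), ∃ (χ : RCC F) (B : Finset ℕ),
    (∃ k : ℕ, 1 ≤ k ∧ ∀ I, χ.ψ I = 0 ∨ χ.ψ I ^ k = 1) ∧
    ∀ P : Ideal (𝓞 F), P.IsPrime → P ≠ ⊥ → (∀ p : ℕ, p.Prime → p ∈ B → (p : 𝓞 F) ∉ P) →
      ∀ g : Ω ≃ₐ[F] Ω, Fro P g → χ.ψ P = ((μ g : ℂˣ) : ℂ)

/-- (RC2) the Euler factors of an induced character at the unramified primes. -/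
def T_RC2 : Prop :=
  ∀ (K : Type) [Field K] [NumberField K] [IsGalois ℚ K] (H : Subgroup (K ≃ₐ[ℚ] K))
    (lam : H →* ℂˣ) (χ : RCC (IntermediateField.fixedField H)) (B : Finset ℕ),
    (∀ P : Ideal (𝓞 (IntermediateField.fixedField H)), P.IsPrime → P ≠ ⊥ →
      (∀ p : ℕ, p.Prime → p ∈ B → (p : 𝓞 (IntermediateField.fixedField H)) ∉ P) →
      ∀ (h : K ≃ₐ[IntermediateField.fixedField H] K) (hm : h.restrictScalars ℚ ∈ H), Fro P h →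
        χ.ψ P = ((lam ⟨h.restrictScalars ℚ, hm⟩ : ℂˣ) : ℂ)) →
    ∃ B' : Finset ℕ, ∀ p : ℕ, p.Prime → p ∉ B' → ∀ Q : Ideal (𝓞 K), Q.IsPrime →
      (p : 𝓞 K) ∈ Q → ∀ φ : K ≃ₐ[ℚ] K, (∀ x : 𝓞 K, φ • x - x ^ p ∈ Q) → ∀ k : ℕ, 1 ≤ k →
        spc χ p k = indc H lam (φ ^ k)

end Pool.Agent.H28.RC
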