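import Pool.Agent.H28.RC.Targets1

/-!
# All Artin L-functions over the rationals: the interface between the parts
-/

set_option autoImplicit false

open NumberField NumberField.InfinitePlace Complex

namespace Pool.Agent.H28.RC

open Pool.Agent.H25.HK Pool.Agent.H25

open scoped Classical in
/-- the character of `G` induced from a one-dimensional character of `H` -/
noncomputable def indc {G : Type} [Group G] (H : Subgroup G) (lam : H →* ℂˣ) (g : G) : ℂ :=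
  ∑ᶠ x : G ⧸ H, if h : x.out⁻¹ * g * x.out ∈ H then ((lam ⟨_, h⟩ : ℂˣ) : ℂ) else 0

/-- (BRA) Brauer's induction theorem. -/
def T_BRA : Prop :=
  ∀ (G : Type) [Group G] [Finite G] (V : Type) [AddCommGroup V] [Module ℂ V]
    [FiniteDimensional ℂ V] (ρ : Representation ℂ G V),
    ∃ (N : ℕ) (H : Fin N → Subgroup G) (lam : ∀ i, H i →* ℂˣ) (n : Fin N → ℤ),
      ∀ g, LinearMap.trace ℂ V (ρ g) = ∑ i, (n i : ℂ) * indc (H i) (lam i) g

/-- (REC) Artin reciprocity for one-dimensional characters of subgroups of `Gal(K/ℚ)`: a primitive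
ray class character of the fixed field with the Euler factors of the induced character at almost
all primes. -/
def T_REC : Prop :=
  ∀ (K : Type) [Field K] [NumberField K] [IsGalois ℚ K] (H : Subgroup (K ≃ₐ[ℚ] K))
    (lam : H →* ℂˣ), ∃ (χ : RCC (IntermediateField.fixedField H)) (B : Finset ℕ),
    (∃ m : ℕ, 1 ≤ m ∧ ∀ I, χ.ψ I = 0 ∨ χ.ψ I ^ m = 1) ∧
    ∀ p : ℕ, p.Prime → p ∉ B → ∀ Q : Ideal (𝓞 K), Q.IsPrime → (p : 𝓞 K) ∈ Q →
      ∀ φ : K ≃ₐ[ℚ] K, (∀ x : 𝓞 K, φ • x - x ^ p ∈ Q) → ∀ k : ℕ, 1 ≤ k →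
        spc χ p k = indc H lam (φ ^ k)

/-- (ALL) every Artin `L`-function over `ℚ` as an `LF`. -/
def T_ALL : Prop :=
  ∀ (R : DL.ArtinRep) (Λ : ℂ → ℂ), IsArtin R Λ → ∃ L : DL.LF, L.n = R.dim ∧
    (∀ (p : Nat.Primes) (k : ℕ), 1 ≤ k →
      ∑ j, L.h j p ^ k = LinearMap.trace ℂ R.V (R.fr p ^ k)) ∧
    ∀ z : ℂ, 0 < z.im → analyticOrderAt L.den z ≠ ⊤ ∧ analyticOrderAt L.num z ≠ ⊤ ∧
      meromorphicOrderAt Λ z + meromorphicOrderAt L.den z = meromorphicOrderAt L.num z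

end Pool.Agent.H28.RC
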