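import Pool.Agent.H28.RC.All
import Pool.Agent.H28.RC.Targets3
import Pool.Agent.H13.RC.SEC
import Pool.Agent.H15.RC.CYC
import Pool.Agent.H15.RC.FR2
import Pool.Agent.H15.RC.RC2
import Pool.Agent.H15.RC.URT
import Pool.Agent.H23.RC.PCO
import Pool.Agent.H30.RC.SPL
import Pool.Agent.H32.RC.CRS
import Pool.Agent.H34.RC.PRT
import Pool.Agent.H37.RC.LOC
import Pool.Agent.H52.RC.FR1
import Pool.Agent.H60.RC.LFA
import Pool.Agent.H60.RC.NTA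
import Pool.Agent.H62.RC.FRE
import Pool.Agent.H62.RC.LGE
import Pool.Agent.H62.RC.RC0
import Pool.Agent.H65.RC.LGT
import Pool.Agent.H66.RC.PSU
import Pool.Agent.H67.RC.EQP
import Pool.Agent.H74.RC.CPR
import Pool.Agent.H74.RC.RC1
import Pool.Agent.H84.RC.RCF
import Pool.Agent.H86.RC.GAL
import Pool.Agent.H86.RC.LFT
import Pool.Agent.H86.RC.LGN
import Pool.Agent.H94.RC.CCH
import Pool.Agent.H94.RC.FR4
import Pool.Agent.H94.RC.SUR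

/-!
# Artin reciprocity in ideal form: assembly of part 3
-/

set_option autoImplicit false

namespace Pool.Agent.H28.RC

theorem c_PCO : T_PCO := Pool.Agent.H23.RC.pf_PCO

theorem c_PSU : T_PSU := Pool.Agent.H66.RC.pf_PSU

theorem c_PRC : T_PRC := Pool.Agent.H66.RC.pf_PRC

theorem c_PRT : T_PRT := Pool.Agent.H34.RC.pf_PRT c_PSU

theorem c_LGE : T_LGE := Pool.Agent.H62.RC.pf_LGE c_EP c_PSU c_PRC

theorem c_LGT : T_LGT := Pool.Agent.H65.RC.pf_LGT c_LGE c_PSU c_PRC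

theorem c_LGN (hWP : T_WPc) : T_LGN := Pool.Agent.H86.RC.pf_LGN c_PRM (c_H1 hWP) c_LGE c_PRC

theorem c_EQP (hWP : T_WPc) : T_EQP := Pool.Agent.H67.RC.pf_EQP c_PCO (c_LGN hWP) c_LGT c_PRC

theorem c_FRE : T_FRE := Pool.Agent.H62.RC.pf_FRE

theorem c_URT : T_URT := Pool.Agent.H15.RC.pf_URT

theorem c_FR1 : T_FR1 := Pool.Agent.H52.RC.pf_FR1 c_FRE

theorem c_FR2 : T_FR2 := Pool.Agent.H15.RC.pf_FR2 c_FRE c_FR1

theorem c_FR4 : T_FR4 := Pool.Agent.H94.RC.pf_FR4 c_FRE c_FR1 c_FR2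

theorem c_SPL : T_SPL := Pool.Agent.H30.RC.pf_SPL c_LGT c_PSU c_PRC c_PRT c_FR4

theorem c_SUR : T_SUR := Pool.Agent.H94.RC.pf_SUR c_FRE c_SPL

theorem c_SEC (hWP : T_WPc) : T_SEC :=
  Pool.Agent.H13.RC.pf_SEC c_PCO c_PSU c_PRC c_LGT (c_LGN hWP) c_SPL

theorem c_LFT : T_LFT := Pool.Agent.H86.RC.pf_LFT Pool.Agent.H60.RC.pf_LFA

theorem c_CCH : T_CCH := Pool.Agent.H94.RC.pf_CCH

theorem c_CYC (hWP : T_WPc) : T_CYC := Pool.Agent.H15.RC.pf_CYC c_FRE c_SUR (c_SEC hWP) c_CCH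

theorem c_LOC (hWP : T_WPc) : T_LOC :=
  Pool.Agent.H37.RC.pf_LOC c_URT c_FR1 c_FR2 c_LFT (c_CYC hWP)

theorem c_CPR : T_CPR := Pool.Agent.H74.RC.pf_CPR c_URT c_FR1 c_SUR

theorem c_NTA : T_NTA := Pool.Agent.H60.RC.pf_NTA

theorem c_GAL : T_GAL := Pool.Agent.H86.RC.pf_GAL

theorem c_CRS (hWP : T_WPc) (hNTB : T_NTB) : T_CRS :=
  Pool.Agent.H32.RC.pf_CRS c_FRE c_PCO (c_LOC hWP) c_CPR hNTB c_GAL

theorem c_RC0 (hWP : T_WPc) (hNTB : T_NTB) (hF : T_FIQ) : T_RC0 :=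
  Pool.Agent.H62.RC.pf_RC0 hF c_FRE c_PCO (c_EQP hWP) (c_CRS hWP hNTB)

theorem c_RC1 (hWP : T_WPc) (hNTB : T_NTB) (hF : T_FIQ) : T_RC1 :=
  Pool.Agent.H74.RC.pf_RC1 c_FRE c_PRM (c_RC0 hWP hNTB hF)

theorem c_RC2 : T_RC2 := Pool.Agent.H15.RC.pf_RC2 c_FRE c_FR1 c_FR2

theorem c_REC (hWP : T_WPc) (hNTB : T_NTB) (hF : T_FIQ) : T_REC :=
  Pool.Agent.H84.RC.pf_RCF (c_RC1 hWP hNTB hF) c_RC2

end Pool.Agent.H28.RC
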