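import Pool.Agent.H25.HK.Targets

/-!
# Hecke L-functions of ray class characters: definitions
-/

set_option autoImplicit false

open NumberField NumberField.InfinitePlace NumberField.Units
  NumberField.Units.dirichletUnitTheorem MeasureTheory Set Filter Complex
open scoped nonZeroDivisors ENNReal

namespace Pool.Agent.H28.RC

open Pool.Agent.H25.HK

/-- the function `∏_{j ∈ J} u_j exp (-π ∑ u_i ^ 2)` -/
noncomputable def gj {ι : Type} [Fintype ι] (J : Finset ι) (u : ι → ℝ) : ℝ :=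
  (∏ j ∈ J, u j) * Real.exp (-Real.pi * ∑ i, u i ^ 2)

section NF

variable (K : Type) [Field K] [NumberField K]

/-- the real places -/
abbrev RP : Type := {v : InfinitePlace K // v.IsReal}

variable {K}

/-- the real number `σ_v(x)` -/
noncomputable def re (v : RP K) (x : K) : ℝ := embedding_of_isReal v.2 x

variable (K)

/-- the product of the signs of `x` at the places in `S` -/
noncomputable def sg (S : Finset (RP K)) (x : K) : ℂ :=
  ∏ v ∈ S, (if 0 < re v x then (1 : ℂ) else -1)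

/-- `∏_{v ∈ S} exp(y_v / 2) σ_v(x)` -/
noncomputable def ws (S : Finset (RP K)) (y : InfinitePlace K → ℝ) (x : K) : ℝ :=
  ∏ v ∈ S, Real.exp (y v.1 / 2) * re v x

/-- the theta series of a function `c` on a fractional ideal `M`, with linear factors at `S` -/
noncomputable def tf (S : Finset (RP K)) (M : FI K) (c : K → ℂ) (y : InfinitePlace K → ℝ) : ℂ :=
  ∑' x : {x : K // x ∈ M}, c x * ((ws K S y x * Real.exp (-Real.pi * qK K y x) : ℝ) : ℂ)

/-- real coordinates of `x`, weighted with `exp (y_v / 2)`; the imaginary parts have the sign `ε` -/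
noncomputable def co (ε : ℝ) (y : InfinitePlace K → ℝ) (x : K) : mixedEmbedding.index K → ℝ
  | Sum.inl v => Real.exp (y v.1 / 2) * re v x
  | Sum.inr (v, i) => Real.sqrt 2 * Real.exp (y v.1 / 2) *
      (if i = 0 then (v.1.embedding x).re else ε * (v.1.embedding x).im)

/-- `X` is a set of representatives of `M / f M` -/
def Rep (f : Ideal (𝓞 K)) (M : FI K) (X : Finset K) : Prop :=
  (∀ r ∈ X, r ∈ M) ∧ ∀ x ∈ M, ∃! r, r ∈ X ∧ x - r ∈ (f : FI K) * M

/-- `∑_{r ∈ X} c(r) e(Tr(r y))` -/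
noncomputable def ft (X : Finset K) (c : K → ℂ) (y : K) : ℂ :=
  ∑ r ∈ X, c r * cexp (2 * Real.pi * I * ((Algebra.trace ℚ K (r * y) : ℚ) : ℂ))

open scoped Classical in
/-- the ideal `x M⁻¹` for `x ∈ M` -/
noncomputable def idl (M : FI K) (x : K) : Ideal (𝓞 K) :=
  if h : ∃ I : Ideal (𝓞 K), (I : FI K) * M = FractionalIdeal.spanSingleton (𝓞 K)⁰ x
    then h.choose else ⊥

/-- A primitive ray class character with conductor `f` (finite part) and `S` (real places). -/
structure RCC where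
  f : Ideal (𝓞 K)
  S : Finset (RP K)
  ψ : Ideal (𝓞 K) → ℂ
  f_ne : f ≠ ⊥
  map_one : ψ ⊤ = 1
  map_mul : ∀ I J, ψ (I * J) = ψ I * ψ J
  map_bot : ψ ⊥ = 0
  norm_one : ∀ I, I ≠ ⊥ → I ⊔ f = ⊤ → ‖ψ I‖ = 1
  eq_zero : ∀ I, I ⊔ f ≠ ⊤ → ψ I = 0
  princ : ∀ a : 𝓞 K, a ≠ 0 → a - 1 ∈ f → ψ (Ideal.span {a}) = sg K S a
  prim : ∀ P : Ideal (𝓞 K), P.IsPrime → f ≤ P → ∃ a : 𝓞 K, a ≠ 0 ∧ Ideal.span {a} ⊔ f = ⊤ ∧
    (∀ x ∈ P, (a - 1) * x ∈ f) ∧ ψ (Ideal.span {a}) ≠ sg K S a

variable {K}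

/-- the complex conjugate character -/
noncomputable def RCC.bar (χ : RCC K) : RCC K where
  f := χ.f
  S := χ.S
  ψ I := (starRingEnd ℂ) (χ.ψ I)
  f_ne := χ.f_ne
  map_one := by simp [χ.map_one]
  map_mul I J := by simp [χ.map_mul]
  map_bot := by simp [χ.map_bot]
  norm_one I h1 h2 := by simpa using χ.norm_one I h1 h2
  eq_zero I h := by simp [χ.eq_zero I h]
  princ a h1 h2 := by
    rw [χ.princ a h1 h2]
    unfold sg
    rw [map_prod]
    refine Finset.prod_congr rfl fun v _ => ?_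
    split_ifs <;> simp
  prim P h1 h2 := by
    obtain ⟨a, h3, h4, h5, h6⟩ := χ.prim P h1 h2
    refine ⟨a, h3, h4, h5, fun h7 => h6 ?_⟩
    have h8 := congrArg (starRingEnd ℂ) h7
    rw [Complex.conj_conj] at h8
    rw [h8]
    unfold sg
    rw [map_prod]
    refine Finset.prod_congr rfl fun v _ => ?_
    split_ifs <;> simp

open scoped Classical in
/-- a nonzero element of `f M` (if `M ≠ 0`) -/
noncomputable def z0 (χ : RCC K) (M : FI K) : K :=
  if h : ∃ x : K, x ≠ 0 ∧ x ∈ (χ.f : FI K) * M then h.choose else 1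

open scoped Classical in
/-- the coefficient `sgn_S(x) ψ(x M⁻¹)`, extended periodically to `0` -/
noncomputable def cf (χ : RCC K) (M : FI K) (x : K) : ℂ :=
  sg K χ.S (if x = 0 then z0 χ M else x) * χ.ψ (idl K M (if x = 0 then z0 χ M else x))

/-- the dual lattice of `f M` -/
noncomputable def du' (χ : RCC K) (M : FI K) : FI K := du K ((χ.f : FI K) * M)

open scoped Classical in
/-- the averaged theta function -/
noncomputable def ffc (χ : RCC K) (M : FI K) (t : ℝ) : ℂ :=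
  ∫ z in Fd K, tf K χ.S M (cf χ M) (yc K (Real.log t) z)

open scoped Classical in
/-- the constant term -/
noncomputable def k0 (χ : RCC K) (M : FI K) : ℂ :=
  if χ.S = ∅ then cf χ M 0 * ((volume.real (Fd K) : ℝ) : ℂ) else 0

/-- the Gamma factor -/
noncomputable def gS (χ : RCC K) (s : ℂ) : ℂ :=
  Gammaℝ s ^ (nrRealPlaces K - χ.S.card) * Gammaℝ (s + 1) ^ χ.S.card *
    Gammaℂ s ^ nrComplexPlaces K

/-- the Dirichlet series of the character -/
noncomputable def Lc (χ : RCC K) (s : ℂ) : ℂ :=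
  ∑' I : {I : Ideal (𝓞 K) // I ≠ ⊥}, χ.ψ I.1 * (Ideal.absNorm I.1 : ℂ) ^ (-s)

/-- the completed function -/
noncomputable def compc (χ : RCC K) (Z : ℂ → ℂ) (s : ℂ) : ℂ :=
  ((|(discr K : ℝ)| * (Ideal.absNorm χ.f : ℝ) : ℝ) : ℂ) ^ (s / 2) * gS χ s * Z s

/-- `Z` is the analytic continuation of the `L`-function (off the real axis) -/
def IsZc (χ : RCC K) (Z : ℂ → ℂ) : Prop :=
  (∀ s : ℂ, s.im ≠ 0 → DifferentiableAt ℂ Z s) ∧ ∀ s : ℂ, 1 < s.re → Z s = Lc χ s

/-- the power sums of the Euler factor at `p` -/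
noncomputable def spc (χ : RCC K) (p k : ℕ) : ℂ :=
  ∑ᶠ P ∈ Ideal.primesOver (Ideal.span {(p : ℤ)}) (𝓞 K),
    if P.inertiaDeg ℤ ∣ k then (P.inertiaDeg ℤ : ℂ) * χ.ψ P ^ (k / P.inertiaDeg ℤ) else 0

end NF

end Pool.Agent.H28.RC
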